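import Mathlib

/-!
# Basic lemmas (copied from the hand-in SpecialOrder, helper65)
-/

open Finset

namespace Pool.Agent.Helper60.RS

set_option linter.unusedSectionVars false

section Basic

variable {α : Type*} [Fintype α] [DecidableEq α]

open Classical in
/-- neighbours of `u` inside `S` -/
noncomputable def nb (F : SimpleGraph α) (S : Finset α) (u : α) : Finset α :=
  S.filter (fun y => F.Adj u y)

theorem mem_nb {F : SimpleGraph α} {S : Finset α} {u y : α} :
    y ∈ nb F S u ↔ y ∈ S ∧ F.Adj u y := by
  classical
  simp [nb]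

/-- number of ordered adjacent pairs inside `S` -/
noncomputable def pairs (F : SimpleGraph α) (S : Finset α) : ℕ := ∑ x ∈ S, (nb F S x).card

theorem nb_mono {F : SimpleGraph α} {S T : Finset α} (h : S ⊆ T) (u : α) :
    nb F S u ⊆ nb F T u := by
  intro y hy
  rw [mem_nb] at hy ⊢
  exact ⟨h hy.1, hy.2⟩

theorem nb_erase (F : SimpleGraph α) (S : Finset α) (u x : α) :
    nb F (S.erase u) x = (nb F S x).erase u := by
  ext y
  simp only [mem_nb, Finset.mem_erase]
  tauto

theorem pairs_erase (F : SimpleGraph α) {S : Finset α} {u : α} (hu : u ∈ S) :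
    pairs F S = pairs F (S.erase u) + 2 * (nb F S u).card := by
  classical
  unfold pairs
  have h1 : ∑ x ∈ S, (nb F S x).card = (nb F S u).card + ∑ x ∈ S.erase u, (nb F S x).card := by
    rw [Finset.add_sum_erase S (fun x => (nb F S x).card) hu]
  have h2 : ∑ x ∈ S.erase u, (nb F S x).card =
      ∑ x ∈ S.erase u, ((nb F (S.erase u) x).card + if F.Adj u x then 1 else 0) := by
    apply Finset.sum_congr rfl
    intro x hx
    rw [nb_erase]
    by_cases h : F.Adj u x
    · rw [if_pos h, Finset.card_erase_of_mem]
      · have : 0 < (nb F S x).card := Finset.card_pos.mpr ⟨u, mem_nb.mpr ⟨hu, h.symm⟩⟩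
        omega
      · exact mem_nb.mpr ⟨hu, h.symm⟩
    · rw [if_neg h, Finset.erase_eq_of_notMem]
      · simp
      · rw [mem_nb]
        rintro ⟨-, h'⟩
        exact h h'.symm
  have h3 : ∑ x ∈ S.erase u, (if F.Adj u x then 1 else 0) = (nb F S u).card := by
    rw [← Finset.card_filter]
    congr 1
    ext y
    simp only [Finset.mem_filter, Finset.mem_erase, mem_nb]
    constructor
    · rintro ⟨⟨_, h2⟩, h3⟩
      exact ⟨h2, h3⟩
    · rintro ⟨h2, h3⟩
      exact ⟨⟨h3.ne', h2⟩, h3⟩
  rw [h1, h2, Finset.sum_add_distrib, h3]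
  ring

theorem pairs_mono {F : SimpleGraph α} {S T : Finset α} (h : S ⊆ T) : pairs F S ≤ pairs F T := by
  unfold pairs
  calc ∑ x ∈ S, (nb F S x).card ≤ ∑ x ∈ S, (nb F T x).card :=
        Finset.sum_le_sum (fun x _ => Finset.card_le_card (nb_mono h x))
    _ ≤ ∑ x ∈ T, (nb F T x).card := Finset.sum_le_sum_of_subset h

/-- Turan's bound for independent sets, proved greedily. -/
theorem exists_indep (F : SimpleGraph α) (X : Finset α) :
    ∃ I ⊆ X, (∀ x ∈ I, ∀ y ∈ I, ¬ F.Adj x y) ∧ X.card ^ 2 ≤ I.card * (pairs F X + X.card) := by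
  classical
  induction hn : X.card using Nat.strong_induction_on generalizing X with
  | _ n ih =>
    subst hn
    rcases X.eq_empty_or_nonempty with rfl | hX
    · exact ⟨∅, by simp, by simp, by simp⟩
    obtain ⟨v, hv, hmin⟩ := Finset.exists_min_image X (fun x => (nb F X x).card) hX
    set d := (nb F X v).card with hd
    set R := insert v (nb F X v) with hR
    have hvn : v ∉ nb F X v := by
      rw [mem_nb]; rintro ⟨-, h⟩; exact F.loopless.irrefl v h
    have hRc : R.card = d + 1 := by rw [hR, Finset.card_insert_of_notMem hvn]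
    have hRX : R ⊆ X := by
      intro y hy
      rw [hR, Finset.mem_insert] at hy
      rcases hy with rfl | hy
      · exact hv
      · exact (mem_nb.mp hy).1
    set X' := X \ R with hX'
    have hXc : X'.card + (d + 1) = X.card := by
      rw [hX', ← hRc]; exact Finset.card_sdiff_add_card_eq_card hRX
    obtain ⟨I', hI'X, hI', hI'c⟩ := ih X'.card (by omega) X' rfl
    have hpairs : pairs F X' + d * (d + 1) ≤ pairs F X := by
      unfold pairs
      have e1 : ∑ x ∈ X, (nb F X x).card = ∑ x ∈ X', (nb F X x).card + ∑ x ∈ R, (nb F X x).card := by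
        rw [hX', Finset.sum_sdiff hRX]
      rw [e1]
      apply Nat.add_le_add
      · exact Finset.sum_le_sum (fun x _ => Finset.card_le_card (nb_mono Finset.sdiff_subset x))
      · calc d * (d + 1) = ∑ x ∈ R, d := by rw [Finset.sum_const, hRc, smul_eq_mul]; ring
          _ ≤ ∑ x ∈ R, (nb F X x).card := Finset.sum_le_sum (fun x hx => hmin x (hRX hx))
    have hvI : v ∉ I' := by
      intro h
      have := hI'X h
      rw [hX', Finset.mem_sdiff] at this
      exact this.2 (by rw [hR]; exact Finset.mem_insert_self _ _)
    have hadj : ∀ y ∈ I', ¬ F.Adj v y := by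
      intro y hy h
      have := hI'X hy
      rw [hX', Finset.mem_sdiff] at this
      apply this.2
      rw [hR]
      exact Finset.mem_insert_of_mem (mem_nb.mpr ⟨this.1, h⟩)
    refine ⟨insert v I', ?_, ?_, ?_⟩
    · intro y hy
      rw [Finset.mem_insert] at hy
      rcases hy with rfl | hy
      · exact hv
      · exact Finset.sdiff_subset (hI'X hy)
    · intro x hx y hy
      rw [Finset.mem_insert] at hx hy
      rcases hx with rfl | hx <;> rcases hy with rfl | hy
      · exact F.loopless.irrefl _
      · exact hadj y hy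
      · intro h; exact hadj x hx h.symm
      · exact hI' x hx y hy
    · rw [Finset.card_insert_of_notMem hvI, ← hXc]
      have h1 : X'.card ^ 2 ≤ I'.card * (pairs F X' + X'.card) := hI'c
      set x := X'.card
      set Q := pairs F X' + x with hQ
      set s := d + 1 with hs
      have h2 : Q + s ^ 2 ≤ pairs F X + (x + s) := by
        have e1 : d * s + s = s ^ 2 := by rw [hs]; ring
        have e2 : pairs F X' + d * s ≤ pairs F X := hpairs
        omega
      have h3 : (x + s) ^ 2 ≤ (I'.card + 1) * (Q + s ^ 2) := by
        have h4 : 2 * (x * s) ≤ I'.card * s ^ 2 + Q := by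
          by_contra hcon
          rw [not_le] at hcon
          have h5 : (I'.card * s ^ 2 + Q) ^ 2 < (2 * (x * s)) ^ 2 := Nat.pow_lt_pow_left hcon (by norm_num)
          have h6 : 4 * (I'.card * Q * s ^ 2) ≤ (I'.card * s ^ 2 + Q) ^ 2 := by
            zify
            nlinarith [sq_nonneg ((I'.card : ℤ) * s ^ 2 - Q)]
          have h7 : (2 * (x * s)) ^ 2 ≤ 4 * (I'.card * Q * s ^ 2) := by
            have : (2 * (x * s)) ^ 2 = 4 * (x ^ 2 * s ^ 2) := by ring
            rw [this]
            exact Nat.mul_le_mul_left 4 (Nat.mul_le_mul_right _ h1)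
          omega
        nlinarith
      exact h3.trans (Nat.mul_le_mul_left _ h2)

/-- a vertex of maximum degree inside `S` (junk if `S` is empty) -/
noncomputable def mx [Nonempty α] (F : SimpleGraph α) (S : Finset α) : α := by
  classical
  exact if h : S.Nonempty then
    (Finset.exists_max_image S (fun x => (nb F S x).card) h).choose else Classical.arbitrary α

theorem mx_mem [Nonempty α] (F : SimpleGraph α) {S : Finset α} (h : S.Nonempty) : mx F S ∈ S := by
  unfold mx
  rw [dif_pos h]
  exact (Finset.exists_max_image S (fun x => (nb F S x).card) h).choose_spec.1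

theorem le_mx [Nonempty α] (F : SimpleGraph α) {S : Finset α} {x : α} (hx : x ∈ S) :
    (nb F S x).card ≤ (nb F S (mx F S)).card := by
  have h : S.Nonempty := ⟨x, hx⟩
  unfold mx
  rw [dif_pos h]
  exact (Finset.exists_max_image S (fun x => (nb F S x).card) h).choose_spec.2 x hx

/-- successive removal of vertices of maximum degree -/
noncomputable def seq [Nonempty α] (F : SimpleGraph α) : ℕ → Finset α
  | 0 => Finset.univ
  | n + 1 => (seq F n).erase (mx F (seq F n))

theorem card_seq [Nonempty α] (F : SimpleGraph α) (n : ℕ) (hn : n ≤ Fintype.card α) :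
    (seq F n).card = Fintype.card α - n := by
  induction n with
  | zero => simp [seq, Finset.card_univ]
  | succ n ih =>
    have h1 := ih (by omega)
    have h2 : (seq F n).Nonempty := by
      rw [← Finset.card_pos]; omega
    rw [seq, Finset.card_erase_of_mem (mx_mem F h2), h1]
    omega

theorem seq_antitone [Nonempty α] (F : SimpleGraph α) {m n : ℕ} (h : m ≤ n) :
    seq F n ⊆ seq F m := by
  induction n, h using Nat.le_induction with
  | base => exact Finset.Subset.refl _
  | succ n _ ih =>
    rw [seq]
    exact (Finset.erase_subset _ _).trans ih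

/-- the `n`-th removed vertex and its degree at that time -/
noncomputable def um [Nonempty α] (F : SimpleGraph α) (n : ℕ) : α := mx F (seq F n)

noncomputable def dg [Nonempty α] (F : SimpleGraph α) (n : ℕ) : ℕ := (nb F (seq F n) (um F n)).card

theorem um_mem [Nonempty α] (F : SimpleGraph α) {n : ℕ} (hn : n < Fintype.card α) :
    um F n ∈ seq F n := by
  apply mx_mem
  rw [← Finset.card_pos, card_seq F n hn.le]
  omega

theorem um_ne [Nonempty α] (F : SimpleGraph α) {m n : ℕ} (h : m < n) (hn : n < Fintype.card α) :
    um F m ≠ um F n := by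
  intro he
  have h1 := um_mem F hn
  have h2 := seq_antitone F (Nat.succ_le_of_lt h) h1
  rw [← he, Nat.succ_eq_add_one, seq] at h2
  exact Finset.notMem_erase _ _ h2

theorem um_injOn [Nonempty α] (F : SimpleGraph α) {t : ℕ} (ht : t ≤ Fintype.card α) :
    Set.InjOn (um F) (Finset.range t : Set ℕ) := by
  intro m hm n hn h
  simp only [Finset.coe_range, Set.mem_Iio] at hm hn
  rcases lt_trichotomy m n with h1 | h1 | h1
  · exact absurd h (um_ne F h1 (by omega))
  · exact h1
  · exact absurd h.symm (um_ne F h1 (by omega))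

theorem dg_antitone [Nonempty α] (F : SimpleGraph α) {m n : ℕ} (h : m ≤ n)
    (hn : n < Fintype.card α) : dg F n ≤ dg F m := by
  have h1 := seq_antitone F h
  calc dg F n ≤ (nb F (seq F m) (um F n)).card := Finset.card_le_card (nb_mono h1 _)
    _ ≤ dg F m := le_mx F (h1 (um_mem F hn))

theorem pairs_seq [Nonempty α] (F : SimpleGraph α) (t : ℕ) (ht : t ≤ Fintype.card α) :
    pairs F Finset.univ = pairs F (seq F t) + 2 * ∑ i ∈ Finset.range t, dg F i := by
  induction t with
  | zero => simp [seq]
  | succ t ih =>
    rw [ih (by omega), pairs_erase F (um_mem F (show t < Fintype.card α by omega)),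
      Finset.sum_range_succ]
    change pairs F (seq F (t + 1)) + 2 * dg F t + _ = _
    ring

theorem pairs_le [Nonempty α] (F : SimpleGraph α) (S : Finset α) :
    pairs F S ≤ S.card * (nb F S (mx F S)).card := by
  unfold pairs
  calc ∑ x ∈ S, (nb F S x).card ≤ ∑ x ∈ S, (nb F S (mx F S)).card :=
        Finset.sum_le_sum (fun x hx => le_mx F hx)
    _ = S.card * (nb F S (mx F S)).card := by rw [Finset.sum_const, smul_eq_mul]

end Basic

section EmbedH

variable {α : Type*} [Fintype α] [DecidableEq α]

theorem exists_injOn_of_card_le {W : Type*} [Nonempty α] (T : Finset W) (I : Finset α)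
    (h : T.card ≤ I.card) : ∃ f : W → α, (∀ w ∈ T, f w ∈ I) ∧ Set.InjOn f (T : Set W) := by
  classical
  let f : W → α := fun w => if hw : w ∈ T then
    (I.equivFin.symm (Fin.castLE h (T.equivFin ⟨w, hw⟩))).1 else Classical.arbitrary α
  refine ⟨f, ?_, ?_⟩
  · intro w hw
    simp only [f, dif_pos hw]
    exact Finset.coe_mem _
  · intro w hw w' hw' e
    rw [Finset.mem_coe] at hw hw'
    simp only [f, dif_pos hw, dif_pos hw'] at e
    have e1 := Subtype.ext e
    have e2 := I.equivFin.symm.injective e1
    have e3 := Fin.castLE_injective h e2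
    have e4 := T.equivFin.injective e3
    exact congrArg Subtype.val e4

theorem embedH_aux [Nonempty α] {W : Type*} [Fintype W] [DecidableEq W] (F : SimpleGraph α)
    (H : SimpleGraph W) (S I : Finset α) (K : ℝ) (hK : 0 < K) (hI : I ⊆ S)
    (hind : ∀ x ∈ I, ∀ y ∈ I, ¬ F.Adj x y) (hdeg : ∀ u ∈ S, ((nb F S u).card : ℝ) ≤ K * I.card)
    (hS : (Fintype.card W : ℝ) + K * pairs H Finset.univ ≤ S.card) (T : Finset W) :
    ∃ f : W → α, (∀ w ∈ T, f w ∈ S) ∧ Set.InjOn f (T : Set W) ∧
      ∀ x ∈ T, ∀ y ∈ T, H.Adj x y → ¬ F.Adj (f x) (f y) := by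
  classical
  induction hn : T.card generalizing T with
  | zero =>
    rw [Finset.card_eq_zero] at hn
    subst hn
    exact ⟨fun _ => Classical.arbitrary α, by simp, by simp, by simp⟩
  | succ n ih =>
    have hT : T.Nonempty := by rw [← Finset.card_pos]; omega
    obtain ⟨v, hv, hmin⟩ := Finset.exists_min_image T (fun x => (nb H T x).card) hT
    set d := (nb H T v).card with hd
    obtain ⟨f, hf1, hf2, hf3⟩ := ih (T.erase v) (by rw [Finset.card_erase_of_mem hv]; omega)
    set X := (T.erase v).image f with hX
    set B := (nb H T v).biUnion (fun w => nb F S (f w)) with hB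
    by_cases hex : ∃ y ∈ S, y ∉ X ∧ y ∉ B
    · obtain ⟨y, hyS, hyX, hyB⟩ := hex
      refine ⟨Function.update f v y, ?_, ?_, ?_⟩
      · intro w hw
        by_cases h : w = v
        · subst h; rw [Function.update_self]; exact hyS
        · rw [Function.update_of_ne h]; exact hf1 w (Finset.mem_erase.mpr ⟨h, hw⟩)
      · intro w hw w' hw' e
        rw [Finset.mem_coe] at hw hw'
        by_cases h : w = v
        · by_cases h' : w' = v
          · rw [h, h']
          · exfalso
            subst h
            rw [Function.update_self, Function.update_of_ne h'] at e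
            exact hyX (hX ▸ Finset.mem_image.mpr ⟨w', Finset.mem_erase.mpr ⟨h', hw'⟩, e.symm⟩)
        · by_cases h' : w' = v
          · exfalso
            subst h'
            rw [Function.update_self, Function.update_of_ne h] at e
            exact hyX (hX ▸ Finset.mem_image.mpr ⟨w, Finset.mem_erase.mpr ⟨h, hw⟩, e⟩)
          · rw [Function.update_of_ne h, Function.update_of_ne h'] at e
            exact hf2 (Finset.mem_coe.mpr (Finset.mem_erase.mpr ⟨h, hw⟩))
              (Finset.mem_coe.mpr (Finset.mem_erase.mpr ⟨h', hw'⟩)) e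
      · have key : ∀ w ∈ T, H.Adj v w → ¬ F.Adj (f w) y := by
          intro w hw hvw hadj
          apply hyB
          rw [hB, Finset.mem_biUnion]
          exact ⟨w, mem_nb.mpr ⟨hw, hvw⟩, mem_nb.mpr ⟨hyS, hadj⟩⟩
        intro x hx z hz hxz
        by_cases h : x = v
        · subst h
          have h' : z ≠ x := hxz.ne'
          rw [Function.update_self, Function.update_of_ne h']
          intro hadj
          exact key z hz hxz hadj.symm
        · by_cases h' : z = v
          · subst h'
            rw [Function.update_self, Function.update_of_ne h]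
            exact key x hx hxz.symm
          · rw [Function.update_of_ne h, Function.update_of_ne h']
            exact hf3 x (Finset.mem_erase.mpr ⟨h, hx⟩) z (Finset.mem_erase.mpr ⟨h', hz⟩) hxz
    · push Not at hex
      have hsub : S ⊆ X ∪ B := by
        intro y hy
        by_cases h : y ∈ X
        · exact Finset.mem_union_left _ h
        · exact Finset.mem_union_right _ (hex y hy h)
      have hc1 : S.card ≤ X.card + B.card := (Finset.card_le_card hsub).trans (Finset.card_union_le _ _)
      have hc2 : X.card ≤ n := by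
        refine Finset.card_image_le.trans ?_
        rw [Finset.card_erase_of_mem hv]; omega
      have hc3 : (B.card : ℝ) ≤ d * (K * I.card) := by
        have h1 : B.card ≤ ∑ w ∈ nb H T v, (nb F S (f w)).card := Finset.card_biUnion_le
        have h2 : ((∑ w ∈ nb H T v, (nb F S (f w)).card : ℕ) : ℝ) ≤ ∑ w ∈ nb H T v, K * I.card := by
          push_cast
          apply Finset.sum_le_sum
          intro w hw
          rw [mem_nb] at hw
          exact hdeg _ (hf1 w (Finset.mem_erase.mpr ⟨hw.2.ne', hw.1⟩))
        rw [Finset.sum_const, nsmul_eq_mul] at h2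
        have h3 : (B.card : ℝ) ≤ ((∑ w ∈ nb H T v, (nb F S (f w)).card : ℕ) : ℝ) := by exact_mod_cast h1
        exact h3.trans h2
      have hc4 : T.card * d ≤ pairs H Finset.univ := by
        calc T.card * d = ∑ x ∈ T, d := by rw [Finset.sum_const, smul_eq_mul]
          _ ≤ ∑ x ∈ T, (nb H T x).card := Finset.sum_le_sum (fun x hx => hmin x hx)
          _ = pairs H T := rfl
          _ ≤ pairs H Finset.univ := pairs_mono (Finset.subset_univ T)
      have hc5 : T.card ≤ Fintype.card W := Finset.card_le_univ T
      have hlt : T.card ≤ I.card := by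
        by_contra hlt
        rw [not_le] at hlt
        have h1 : (S.card : ℝ) ≤ n + d * (K * I.card) := by
          have : (S.card : ℝ) ≤ X.card + B.card := by exact_mod_cast hc1
          have h2 : (X.card : ℝ) ≤ n := by exact_mod_cast hc2
          linarith
        have h2 : (n : ℝ) + 1 ≤ Fintype.card W := by
          have : n + 1 ≤ Fintype.card W := by omega
          exact_mod_cast this
        have h3 : (T.card : ℝ) * d ≤ pairs H Finset.univ := by exact_mod_cast hc4
        have h4 : K * ((T.card : ℝ) * d) ≤ K * pairs H Finset.univ :=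
          mul_le_mul_of_nonneg_left h3 hK.le
        have h5 : (I.card : ℝ) ≤ T.card := by exact_mod_cast hlt.le
        have h6 : K * ((I.card : ℝ) * d) ≤ K * ((T.card : ℝ) * d) := by
          apply mul_le_mul_of_nonneg_left _ hK.le
          exact mul_le_mul_of_nonneg_right h5 (Nat.cast_nonneg d)
        nlinarith
      obtain ⟨g, hg1, hg2⟩ := exists_injOn_of_card_le T I hlt
      exact ⟨g, fun w hw => hI (hg1 w hw), hg2, fun x hx y hy _ => hind _ (hg1 x hx) _ (hg1 y hy)⟩

theorem embedH [Nonempty α] {W : Type*} [Fintype W] [DecidableEq W] (F : SimpleGraph α)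
    (H : SimpleGraph W) (S I : Finset α) (K : ℝ) (hK : 0 < K) (hI : I ⊆ S)
    (hind : ∀ x ∈ I, ∀ y ∈ I, ¬ F.Adj x y) (hdeg : ∀ u ∈ S, ((nb F S u).card : ℝ) ≤ K * I.card)
    (hS : (Fintype.card W : ℝ) + K * pairs H Finset.univ ≤ S.card) :
    H.IsContained Fᶜ := by
  obtain ⟨f, -, hf2, hf3⟩ := embedH_aux F H S I K hK hI hind hdeg hS Finset.univ
  have hinj : Function.Injective f := by
    intro x y e
    exact hf2 (by simp) (by simp) e
  refine ⟨⟨⟨f, ?_⟩, hinj⟩⟩
  intro x y hxy
  rw [SimpleGraph.compl_adj]
  exact ⟨fun e => hxy.ne (hinj e), hf3 x (Finset.mem_univ _) y (Finset.mem_univ _) hxy⟩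

end EmbedH

end Pool.Agent.Helper60.RS
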