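import Mathlib
import Pool.Agent.Helper60.RS.Base

/-!
# Definitions for the two Ramsey size linearity theorems

`F` is a host graph on `N` vertices whose complement contains no copy of `H`.
-/

open Finset

namespace Pool.Agent.Helper60.RS

section Defs

variable {α : Type*} [Fintype α] [DecidableEq α] {ι : Type*} [Fintype ι] [DecidableEq ι]

/-- Distinct centres `u z`, each with a set `X z` of at least `D` neighbours in which independent
sets have fewer than `|X z| / K` elements. -/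
structure Stars (F : SimpleGraph α) (u : ι → α) (X : ι → Finset α) (K D : ℕ) : Prop where
  inj : Function.Injective u
  adj : ∀ z, ∀ x ∈ X z, F.Adj (u z) x
  card : ∀ z, D ≤ (X z).card
  indep : ∀ z, ∀ I ⊆ X z, (∀ x ∈ I, ∀ y ∈ I, ¬ F.Adj x y) → K * I.card < (X z).card

/-- The centres `v ≠ z` whose set contains `x` and `y` and meets `P z` in at least `m` points. -/
def cen (P : ι → Finset α) (m : ℕ) (z : ι) (x y : α) : Finset ι :=
  univ.filter (fun v => v ≠ z ∧ x ∈ P v ∧ y ∈ P v ∧ m ≤ (P v ∩ P z).card)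

/-- The points `y` of `P z` which are bad for `x`: fewer than `m` centres in `cen`. -/
def bad (P : ι → Finset α) (m : ℕ) (z : ι) (x : α) : Finset α :=
  (P z).filter (fun y => y ≠ x ∧ (cen P m z x y).card < m)

/-- A cleaned system of stars. Only the `z` with `P z` nonempty matter. -/
structure Clean (F : SimpleGraph α) (u : ι → α) (P : ι → Finset α) (m q k M : ℕ) : Prop where
  inj : Function.Injective u
  adj : ∀ z, ∀ x ∈ P z, F.Adj (u z) x
  big : ∀ z, (P z).Nonempty → M ≤ (P z).card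
  core : ∀ z, (P z).Nonempty → ∀ Y ⊆ P z, (P z).card ≤ 4 * Y.card →
    ∃ X ⊆ Y, X.Nonempty ∧ ∀ x ∈ X, k ≤ (nb F X x).card
  good : ∀ z, ∀ x ∈ P z, q * (bad P m z x).card < (P z).card

/-- A path `a = p 0, ..., p L = b` of length exactly `L` with interior in `Y` and off `W`. -/
def Ear (F : SimpleGraph α) (Y W : Finset α) (L : ℕ) (a b : α) : Prop :=
  ∃ p : ℕ → α, p 0 = a ∧ p L = b ∧ (∀ i < L, F.Adj (p i) (p (i + 1))) ∧
    (∀ i ≤ L, ∀ j ≤ L, p i = p j → i = j) ∧ ∀ i, 0 < i → i < L → p i ∈ Y ∧ p i ∉ W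

/-- A robust set: any vertex has a neighbour, any two vertices are joined by a path of length
14, and there is a cone over a set of large minimum degree, all avoiding any `n` vertices. -/
structure Robust (F : SimpleGraph α) (Y : Finset α) (n : ℕ) : Prop where
  leaf : ∀ W : Finset α, W.card ≤ n → ∀ y ∈ Y, ∃ y' ∈ Y, y' ∉ W ∧ F.Adj y y'
  ear : ∀ W : Finset α, W.card ≤ n → ∀ a ∈ Y, ∀ b ∈ Y, a ≠ b → Ear F Y W 14 a b
  cone : ∀ W : Finset α, W.card ≤ n → ∃ w ∈ Y, w ∉ W ∧ ∃ X ⊆ Y, X.Nonempty ∧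
    (∀ x ∈ X, x ∉ W ∧ F.Adj w x) ∧ ∀ x ∈ X, n ≤ (nb F X x).card

end Defs

section Build

variable {V : Type*} [Fintype V] [DecidableEq V]

/-- `Fo G T`: the set `T` induces a forest, built by adding vertices of degree at most 1. -/
inductive Fo (G : SimpleGraph V) : Finset V → Prop
  | empty : Fo G ∅
  | leaf (S : Finset V) (v : V) : Fo G S → v ∉ S → (nb G S v).card ≤ 1 → Fo G (insert v S)

/-- `Bd G S`: the set `S` is built by adding vertices of degree at most 1, paths with 13 interior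
vertices between distinct old vertices, and disjoint cones over forests. -/
inductive Bd (G : SimpleGraph V) : Finset V → Prop
  | empty : Bd G ∅
  | leaf (S : Finset V) (v : V) : Bd G S → v ∉ S → (nb G S v).card ≤ 1 → Bd G (insert v S)
  | ear (S : Finset V) (p : ℕ → V) : Bd G S → (∀ i ≤ 14, ∀ j ≤ 14, p i = p j → i = j) →
      p 0 ∈ S → p 14 ∈ S → (∀ i, 0 < i → i < 14 → p i ∉ S) →
      (∀ i, 0 < i → i < 14 → ∀ v, (v ∈ S ∨ ∃ j, 0 < j ∧ j < 14 ∧ v = p j) →
        G.Adj (p i) v → v = p (i - 1) ∨ v = p (i + 1)) →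
      Bd G (S ∪ (Finset.Ioo 0 14).image p)
  | cone (S T : Finset V) (w : V) : Bd G S → Fo G T → Disjoint T S → w ∉ S → w ∉ T →
      (∀ x ∈ insert w T, ∀ y ∈ S, ¬ G.Adj x y) → Bd G (insert w (T ∪ S))

end Build

end Pool.Agent.Helper60.RS
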