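import Mathlib
import Pool.Agent.Helper60.RS.Defs

/-!
# CLEAN: the cleaning lemma

Proof (extremal). For `P : ι → Finset α` with `P z ⊆ X z` put (in `ℤ`)
`A(P) = ∑_{(x,y) ∈ α × α} min (#{v | x ∈ P v ∧ y ∈ P v}) (2m)`,
`C(P) = ∑_{(z,v) ∈ ι × ι} (min |P z ∩ P v| m)^2`,
`Ψ(P) = 2mD ∑_z |P z| - mD ∑_{z : P z ≠ ∅} |X z| - 2q (2m A(P) + C(P))`.
Let `P` maximise `Ψ` over all `P ≤ X` (finite set). Write `N = |α|`, `t = |ι|`.

(0) `Ψ(∅) = 0` and `Ψ(X) ≥ mD ∑ |X z| - 2q (4 m^2 N^2 + m^2 N^2) ≥ m D^2 N / 2 - 10 q m^2 N^2 > 0`,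
so some `P z` is nonempty.
(1) If `P z ≠ ∅`, replace `P z` by `∅`: `A`, `C` do not increase, so `Ψ` changes by at least
`- 2mD |P z| + mD |X z|`, hence `|X z| ≤ 2 |P z|`.
(2) Suppose `x ∈ P z` and `q |bad P m z x| ≥ |P z|`. Replace `P z` by `(P z).erase x`. Split `bad`
into `bad₁` (those `y` with `#{v | x, y ∈ P v} ≤ 2m`) and `bad₂` (the others). For `y ∈ bad₁` the
terms `(x,y)` and `(y,x)` of `A` both drop by 1. For `y ∈ bad₂` there are at least `2m` indices
`v ≠ z` with `x, y ∈ P v`, fewer than `m` of which have `|P v ∩ P z| ≥ m`, so at least `m` of them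
have `s_v = |P v ∩ P z| < m`; for each `v ≠ z` with `x ∈ P v` and `s_v < m` the terms `(z,v)` and
`(v,z)` of `C` both drop by `2 s_v - 1 ≥ 2 (s_v - 1)`, and `s_v - 1` is the number of `y ≠ x` in
`P v ∩ P z`. Hence `C` drops by at least `4 ∑_v (s_v - 1) ≥ 4 m |bad₂|` and `2m A` drops by at
least `4 m |bad₁|`. So `Ψ` increases by at least `-2mD + 2q * 4m |bad| ≥ -2mD + 8m |P z| ≥
-2mD + 4m |X z| ≥ 2mD > 0` (using (1)), a contradiction.
-/

open Finset

namespace Pool.Agent.Helper60.RS

section Clean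

set_option linter.unusedSectionVars false

variable {ι α : Type*} [Fintype ι] [DecidableEq ι] [Fintype α] [DecidableEq α]

/-- number of indices whose set contains both points -/
def clCnt (P : ι → Finset α) (x y : α) : ℕ := (univ.filter (fun v => x ∈ P v ∧ y ∈ P v)).card

/-- the term `A` of the potential -/
def clA (P : ι → Finset α) (m : ℕ) : ℕ := ∑ x, ∑ y, min (clCnt P x y) (2 * m)

/-- the term `C` of the potential -/
def clC (P : ι → Finset α) (m : ℕ) : ℕ := ∑ z, ∑ v, (min (P z ∩ P v).card m) ^ 2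

/-- total size of the `X z` with `P z` nonempty -/
def clB (X P : ι → Finset α) : ℕ := ∑ z, if (P z).Nonempty then (X z).card else 0

/-- total size -/
def clS (P : ι → Finset α) : ℕ := ∑ z, (P z).card

/-- the potential -/
def clPsi (X P : ι → Finset α) (D m q : ℕ) : ℤ :=
  2 * m * D * (clS P : ℤ) - m * D * (clB X P : ℤ) - 2 * q * (2 * m * (clA P m : ℤ) + (clC P m : ℤ))

theorem cl_sum_aux {β : Type*} [Fintype β] [DecidableEq β] (f f' : β → β → ℕ) (x : β)
    (S : Finset β) (hx : x ∉ S) (g : β → ℕ) (hmono : ∀ a b, f' a b ≤ f a b)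
    (h1 : ∀ b ∈ S, f' x b + g b ≤ f x b) (h2 : ∀ a ∈ S, f' a x + g a ≤ f a x) :
    ∑ a, ∑ b, f' a b + 2 * ∑ b ∈ S, g b ≤ ∑ a, ∑ b, f a b := by
  have e1 : ∑ a : β, ∑ b : β, (if a = x then (if b ∈ S then g b else 0) else 0) =
      ∑ b ∈ S, g b := by
    rw [Finset.sum_comm]
    simp [Finset.sum_ite_mem]
  have e2 : ∑ a : β, ∑ b : β, (if b = x then (if a ∈ S then g a else 0) else 0) =
      ∑ b ∈ S, g b := by
    simp [Finset.sum_ite_mem]
  calc ∑ a, ∑ b, f' a b + 2 * ∑ b ∈ S, g b
      = ∑ a : β, ∑ b : β, (f' a b + (if a = x then (if b ∈ S then g b else 0) else 0) +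
          (if b = x then (if a ∈ S then g a else 0) else 0)) := by
        simp only [Finset.sum_add_distrib]
        rw [e1, e2]
        ring
    _ ≤ ∑ a, ∑ b, f a b := by
        refine Finset.sum_le_sum (fun a _ => Finset.sum_le_sum (fun b _ => ?_))
        by_cases ha : a = x
        · subst ha
          by_cases hb : b ∈ S
          · have hne : b ≠ a := by rintro rfl; exact hx hb
            rw [if_pos rfl, if_pos hb, if_neg hne]
            exact h1 b hb
          · rw [if_pos rfl, if_neg hb]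
            by_cases hba : b = a
            · rw [if_pos hba, if_neg hx]
              exact hmono a b
            · rw [if_neg hba]
              exact hmono a b
        · rw [if_neg ha]
          by_cases hb : b = x
          · subst hb
            rw [if_pos rfl]
            by_cases haS : a ∈ S
            · rw [if_pos haS]
              exact h2 a haS
            · rw [if_neg haS]
              exact hmono a b
          · rw [if_neg hb]
            exact hmono a b

theorem clCnt_mono {P P' : ι → Finset α} (h : ∀ z, P' z ⊆ P z) (x y : α) :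
    clCnt P' x y ≤ clCnt P x y := by
  unfold clCnt
  refine Finset.card_le_card ?_
  intro v hv
  rw [mem_filter] at hv ⊢
  exact ⟨hv.1, h v hv.2.1, h v hv.2.2⟩

theorem clA_mono {P P' : ι → Finset α} (h : ∀ z, P' z ⊆ P z) (m : ℕ) : clA P' m ≤ clA P m := by
  unfold clA
  exact Finset.sum_le_sum (fun x _ => Finset.sum_le_sum (fun y _ =>
    min_le_min_right _ (clCnt_mono h x y)))

theorem cl_term_mono {P P' : ι → Finset α} (h : ∀ z, P' z ⊆ P z) (m : ℕ) (z v : ι) :
    (min (P' z ∩ P' v).card m) ^ 2 ≤ (min (P z ∩ P v).card m) ^ 2 := by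
  refine Nat.pow_le_pow_left (min_le_min_right _ (Finset.card_le_card ?_)) 2
  exact Finset.inter_subset_inter (h z) (h v)

theorem clC_mono {P P' : ι → Finset α} (h : ∀ z, P' z ⊆ P z) (m : ℕ) : clC P' m ≤ clC P m := by
  unfold clC
  exact Finset.sum_le_sum (fun x _ => Finset.sum_le_sum (fun y _ => cl_term_mono h m x y))

theorem clB_mono {X P P' : ι → Finset α} (h : ∀ z, P' z ⊆ P z) : clB X P' ≤ clB X P := by
  unfold clB
  refine Finset.sum_le_sum (fun z _ => ?_)
  by_cases hz : (P' z).Nonempty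
  · rw [if_pos hz, if_pos (hz.mono (h z))]
  · rw [if_neg hz]
    exact Nat.zero_le _

/-- the drop of `A` when `x` is removed from `P z` -/
theorem clA_drop {P P' : ι → Finset α} {z : ι} {x : α} (hx : x ∈ P z)
    (hz : P' z = (P z).erase x) (hne : ∀ v, v ≠ z → P' v = P v) (m : ℕ) (S : Finset α)
    (hS : ∀ y ∈ S, y ∈ P z ∧ y ≠ x ∧ clCnt P x y ≤ 2 * m) :
    clA P' m + 2 * S.card ≤ clA P m := by
  have hsub : ∀ v, P' v ⊆ P v := by
    intro v
    by_cases h : v = z
    · subst h; rw [hz]; exact Finset.erase_subset _ _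
    · rw [hne v h]
  have hsymm : ∀ (Q : ι → Finset α) (a b : α), clCnt Q a b = clCnt Q b a := by
    intro Q a b
    unfold clCnt
    congr 1
    ext v
    simp only [mem_filter]
    tauto
  have hlt : ∀ y ∈ S, min (clCnt P' x y) (2 * m) + 1 ≤ min (clCnt P x y) (2 * m) := by
    intro y hy
    obtain ⟨hy1, hy2, hy3⟩ := hS y hy
    have h1 : clCnt P' x y < clCnt P x y := by
      unfold clCnt
      refine Finset.card_lt_card ?_
      rw [Finset.ssubset_iff_of_subset]
      · refine ⟨z, ?_, ?_⟩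
        · rw [mem_filter]
          exact ⟨mem_univ _, hx, hy1⟩
        · rw [mem_filter]
          rintro ⟨-, h2, -⟩
          rw [hz] at h2
          exact Finset.notMem_erase _ _ h2
      · intro v hv
        rw [mem_filter] at hv ⊢
        exact ⟨hv.1, hsub v hv.2.1, hsub v hv.2.2⟩
    omega
  have key := cl_sum_aux (fun a b => min (clCnt P a b) (2 * m))
    (fun a b => min (clCnt P' a b) (2 * m)) x S (fun h => (hS x h).2.1 rfl) (fun _ => 1)
    (fun a b => min_le_min_right _ (clCnt_mono hsub a b)) hlt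
    (fun y hy => by
      have := hlt y hy
      rw [hsymm P' y x, hsymm P y x]
      exact this)
  rw [Finset.sum_const, smul_eq_mul, mul_one] at key
  exact key

/-- the drop of `C` when `x` is removed from `P z` -/
theorem clC_drop {P P' : ι → Finset α} {z : ι} {x : α} (hx : x ∈ P z)
    (hz : P' z = (P z).erase x) (hne : ∀ v, v ≠ z → P' v = P v) (m : ℕ) (G : Finset ι)
    (hG : ∀ v ∈ G, v ≠ z ∧ x ∈ P v ∧ (P v ∩ P z).card < m) :
    clC P' m + 2 * ∑ v ∈ G, 2 * ((P v ∩ P z).card - 1) ≤ clC P m := by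
  have hsub : ∀ v, P' v ⊆ P v := by
    intro v
    by_cases h : v = z
    · subst h; rw [hz]; exact Finset.erase_subset _ _
    · rw [hne v h]
  have hlt : ∀ v ∈ G, (min (P' v ∩ P' z).card m) ^ 2 + 2 * ((P v ∩ P z).card - 1) ≤
      (min (P v ∩ P z).card m) ^ 2 := by
    intro v hv
    obtain ⟨hv1, hv2, hv3⟩ := hG v hv
    have h1 : P' v ∩ P' z = (P v ∩ P z).erase x := by
      rw [hne v hv1, hz, Finset.inter_erase]
    have h2 : (P' v ∩ P' z).card = (P v ∩ P z).card - 1 := by
      rw [h1, Finset.card_erase_of_mem (Finset.mem_inter.2 ⟨hv2, hx⟩)]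
    have h3 : 0 < (P v ∩ P z).card :=
      Finset.card_pos.2 ⟨x, Finset.mem_inter.2 ⟨hv2, hx⟩⟩
    rw [h2]
    obtain ⟨s, hs⟩ : ∃ s, (P v ∩ P z).card = s + 1 := ⟨(P v ∩ P z).card - 1, by omega⟩
    rw [hs] at hv3 ⊢
    rw [Nat.add_sub_cancel, min_eq_left (by omega), min_eq_left (by omega)]
    have h4 : (s + 1) ^ 2 = s ^ 2 + 2 * s + 1 := by ring
    omega
  have key := cl_sum_aux (fun a b => (min (P a ∩ P b).card m) ^ 2)
    (fun a b => (min (P' a ∩ P' b).card m) ^ 2) z G (fun h => (hG z h).1 rfl)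
    (fun v => 2 * ((P v ∩ P z).card - 1))
    (fun a b => cl_term_mono hsub m a b)
    (fun y hy => by
      have := hlt y hy
      simp only [Finset.inter_comm (P' z), Finset.inter_comm (P z)]
      exact this) hlt
  exact key

/-- the double counting of step (2) -/
theorem cl_count {P : ι → Finset α} {z : ι} {x : α} (hx : x ∈ P z) (m : ℕ) (S : Finset α)
    (G : Finset ι) (hG : ∀ v, v ∈ G ↔ v ≠ z ∧ x ∈ P v ∧ (P v ∩ P z).card < m)
    (hS : ∀ y ∈ S, y ∈ P z ∧ y ≠ x ∧ (cen P m z x y).card < m ∧ 2 * m < clCnt P x y) :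
    m * S.card ≤ ∑ v ∈ G, ((P v ∩ P z).card - 1) := by
  have h1 : ∀ y ∈ S, m ≤ (G.filter (fun v => y ∈ P v)).card := by
    intro y hy
    obtain ⟨hy1, hy2, hy3, hy4⟩ := hS y hy
    unfold clCnt at hy4
    have hsub : (univ.filter (fun v => x ∈ P v ∧ y ∈ P v)) ⊆
        insert z (cen P m z x y ∪ G.filter (fun v => y ∈ P v)) := by
      intro v hv
      rw [mem_filter] at hv
      rw [mem_insert]
      by_cases hvz : v = z
      · exact Or.inl hvz
      · right
        rw [mem_union]
        by_cases hm : m ≤ (P v ∩ P z).card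
        · left
          unfold cen
          rw [mem_filter]
          exact ⟨mem_univ _, hvz, hv.2.1, hv.2.2, hm⟩
        · right
          rw [mem_filter, hG]
          exact ⟨⟨hvz, hv.2.1, not_le.1 hm⟩, hv.2.2⟩
    have h2 := (Finset.card_le_card hsub).trans (Finset.card_insert_le _ _)
    have h3 := Finset.card_union_le (cen P m z x y) (G.filter (fun v => y ∈ P v))
    omega
  have h2 : ∀ v ∈ G, (S.filter (fun y => y ∈ P v)).card ≤ (P v ∩ P z).card - 1 := by
    intro v hv
    have hv' := (hG v).1 hv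
    have hsub : S.filter (fun y => y ∈ P v) ⊆ (P v ∩ P z).erase x := by
      intro y hy
      rw [mem_filter] at hy
      rw [mem_erase, mem_inter]
      exact ⟨(hS y hy.1).2.1, hy.2, (hS y hy.1).1⟩
    have h3 := Finset.card_le_card hsub
    rwa [Finset.card_erase_of_mem (Finset.mem_inter.2 ⟨hv'.2.1, hx⟩)] at h3
  calc m * S.card = ∑ _y ∈ S, m := by rw [Finset.sum_const, smul_eq_mul, mul_comm]
    _ ≤ ∑ y ∈ S, (G.filter (fun v => y ∈ P v)).card := Finset.sum_le_sum h1
    _ = ∑ v ∈ G, (S.filter (fun y => y ∈ P v)).card :=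
        Finset.sum_card_bipartiteAbove_eq_sum_card_bipartiteBelow (fun y v => y ∈ P v)
    _ ≤ ∑ v ∈ G, ((P v ∩ P z).card - 1) := Finset.sum_le_sum h2

theorem clA_le (P : ι → Finset α) (m : ℕ) : clA P m ≤ 2 * m * Fintype.card α ^ 2 := by
  unfold clA
  calc ∑ x : α, ∑ y : α, min (clCnt P x y) (2 * m) ≤ ∑ _x : α, ∑ _y : α, 2 * m :=
        Finset.sum_le_sum (fun x _ => Finset.sum_le_sum (fun y _ => min_le_right _ _))
    _ = 2 * m * Fintype.card α ^ 2 := by
        simp only [Finset.sum_const, Finset.card_univ, smul_eq_mul]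
        ring

theorem clC_le (P : ι → Finset α) (m : ℕ) : clC P m ≤ m ^ 2 * Fintype.card ι ^ 2 := by
  unfold clC
  calc ∑ z : ι, ∑ v : ι, (min (P z ∩ P v).card m) ^ 2 ≤ ∑ _z : ι, ∑ _v : ι, m ^ 2 :=
        Finset.sum_le_sum (fun x _ => Finset.sum_le_sum (fun y _ =>
          Nat.pow_le_pow_left (min_le_right _ _) 2))
    _ = m ^ 2 * Fintype.card ι ^ 2 := by
        simp only [Finset.sum_const, Finset.card_univ, smul_eq_mul]
        ring

theorem cl_sum_update (f f' : ι → ℕ) (z : ι) (h : ∀ v, v ≠ z → f' v = f v) :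
    ∑ v, f' v + f z = ∑ v, f v + f' z := by
  rw [← Finset.add_sum_erase univ f (mem_univ z), ← Finset.add_sum_erase univ f' (mem_univ z)]
  have h1 : ∑ v ∈ univ.erase z, f' v = ∑ v ∈ univ.erase z, f v :=
    Finset.sum_congr rfl (fun v hv => h v (Finset.ne_of_mem_erase hv))
  rw [h1]
  ring

theorem cl_pos (X : ι → Finset α) (D m q : ℕ) (hm : 1 ≤ m)
    (hD : ∀ z, D ≤ (X z).card)
    (hι : Fintype.card α ≤ 2 * Fintype.card ι) (hι' : Fintype.card ι ≤ Fintype.card α)
    (hpos : 0 < Fintype.card α) (hbig : 20 * q * m * Fintype.card α < D ^ 2) :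
    0 < clPsi X X D m q := by
  have hBS : clB X X ≤ clS X := by
    unfold clB clS
    refine Finset.sum_le_sum (fun z _ => ?_)
    split_ifs
    · exact le_rfl
    · exact Nat.zero_le _
  have hS : Fintype.card ι * D ≤ clS X := by
    unfold clS
    calc Fintype.card ι * D = ∑ _z : ι, D := by
          rw [Finset.sum_const, Finset.card_univ, smul_eq_mul]
      _ ≤ ∑ z, (X z).card := Finset.sum_le_sum (fun z _ => hD z)
  have hA := clA_le X m
  have hC := clC_le X m
  have hC2 : m ^ 2 * Fintype.card ι ^ 2 ≤ m ^ 2 * Fintype.card α ^ 2 :=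
    Nat.mul_le_mul_left _ (Nat.pow_le_pow_left hι' 2)
  unfold clPsi
  set N := Fintype.card α
  set t := Fintype.card ι
  set S := clS X
  set B := clB X X
  set A := clA X m
  set C := clC X m
  have h1 : (q : ℤ) * (2 * m * A + C) ≤ q * (5 * m ^ 2 * N ^ 2) := by
    refine mul_le_mul_of_nonneg_left ?_ (by positivity)
    have hA' : (A : ℤ) ≤ 2 * m * N ^ 2 := by exact_mod_cast hA
    have hC' : (C : ℤ) ≤ m ^ 2 * N ^ 2 := by exact_mod_cast hC.trans hC2
    have hA2 : (2 * m : ℤ) * A ≤ 2 * m * (2 * m * N ^ 2) :=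
      mul_le_mul_of_nonneg_left hA' (by positivity)
    linarith
  have h2 : (m * D : ℤ) * B ≤ m * D * S :=
    mul_le_mul_of_nonneg_left (by exact_mod_cast hBS) (by positivity)
  have h3 : (m * D : ℤ) * (t * D) ≤ m * D * S :=
    mul_le_mul_of_nonneg_left (by exact_mod_cast hS) (by positivity)
  have h4 : (m * D ^ 2 : ℤ) * N ≤ m * D ^ 2 * (2 * t) :=
    mul_le_mul_of_nonneg_left (by exact_mod_cast hι) (by positivity)
  have h5 : (m * N : ℤ) * (20 * q * m * N) < m * N * D ^ 2 := by
    refine mul_lt_mul_of_pos_left (by exact_mod_cast hbig) ?_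
    have hm' : (0 : ℤ) < m := by exact_mod_cast hm
    have hN' : (0 : ℤ) < N := by exact_mod_cast hpos
    positivity
  linarith

end Clean

theorem clean {ι α : Type*} [Fintype ι] [DecidableEq ι] [Fintype α] [DecidableEq α]
    (X : ι → Finset α) (D m q : ℕ) (hm : 1 ≤ m) (hq : 1 ≤ q) (hD : ∀ z, D ≤ (X z).card)
    (hι : Fintype.card α ≤ 2 * Fintype.card ι) (hι' : Fintype.card ι ≤ Fintype.card α)
    (hpos : 0 < Fintype.card α) (hbig : 20 * q * m * Fintype.card α < D ^ 2) :
    ∃ P : ι → Finset α, (∀ z, P z ⊆ X z) ∧ (∃ z, (P z).Nonempty) ∧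
      (∀ z, (P z).Nonempty → (X z).card ≤ 2 * (P z).card) ∧
      ∀ z, ∀ x ∈ P z, q * (bad P m z x).card < (P z).card := by
  classical
  have hDpos : 0 < D := by
    rcases Nat.eq_zero_or_pos D with h | h
    · rw [h] at hbig
      simp at hbig
    · exact h
  obtain ⟨P, hPmem, hPmax⟩ := Finset.exists_max_image
    (Fintype.piFinset (fun z => (X z).powerset)) (fun P => clPsi X P D m q)
    ⟨X, Fintype.mem_piFinset.2 (fun z => Finset.mem_powerset_self _)⟩
  have hP : ∀ z, P z ⊆ X z := fun z =>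
    Finset.mem_powerset.1 (Fintype.mem_piFinset.1 hPmem z)
  have hbest : ∀ P' : ι → Finset α, (∀ z, P' z ⊆ X z) → clPsi X P' D m q ≤ clPsi X P D m q :=
    fun P' h => hPmax P' (Fintype.mem_piFinset.2 (fun z => Finset.mem_powerset.2 (h z)))
  have hΨpos : 0 < clPsi X P D m q :=
    (cl_pos X D m q hm hD hι hι' hpos hbig).trans_le (hbest X (fun z => Finset.Subset.refl _))
  have hmD : (0 : ℤ) < m * D := by
    have h1 : (0 : ℤ) < m := by exact_mod_cast hm
    have h2 : (0 : ℤ) < D := by exact_mod_cast hDpos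
    positivity
  have hstep1 : ∀ z, (P z).Nonempty → (X z).card ≤ 2 * (P z).card := by
    intro z hz
    set P' : ι → Finset α := Function.update P z ∅ with hP'
    have hz' : P' z = ∅ := Function.update_self _ _ _
    have hne : ∀ v, v ≠ z → P' v = P v := fun v hv => Function.update_of_ne hv _ _
    have hsub : ∀ v, P' v ⊆ P v := by
      intro v
      by_cases h : v = z
      · subst h; rw [hz']; exact Finset.empty_subset _
      · rw [hne v h]
    have h1 := hbest P' (fun v => (hsub v).trans (hP v))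
    have hS := cl_sum_update (fun v => (P v).card) (fun v => (P' v).card) z
      (fun v hv => by simp only [hne v hv])
    have hB := cl_sum_update (fun v => if (P v).Nonempty then (X v).card else 0)
      (fun v => if (P' v).Nonempty then (X v).card else 0) z
      (fun v hv => by simp only [hne v hv])
    simp only [hz', Finset.card_empty, Finset.not_nonempty_empty, if_false, if_pos hz,
      add_zero] at hS hB
    have hS' : (clS P' : ℤ) + (P z).card = clS P := by exact_mod_cast hS
    have hB' : (clB X P' : ℤ) + (X z).card = clB X P := by exact_mod_cast hB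
    have hA' : (clA P' m : ℤ) ≤ clA P m := by exact_mod_cast clA_mono hsub m
    have hC' : (clC P' m : ℤ) ≤ clC P m := by exact_mod_cast clC_mono hsub m
    unfold clPsi at h1
    have h2 : (2 * q : ℤ) * (2 * m * (clA P' m : ℤ) + (clC P' m : ℤ)) ≤
        2 * q * (2 * m * (clA P m : ℤ) + (clC P m : ℤ)) := by
      refine mul_le_mul_of_nonneg_left ?_ (by positivity)
      have := mul_le_mul_of_nonneg_left hA' (show (0 : ℤ) ≤ 2 * m by positivity)
      linarith
    rw [← hS', ← hB'] at h1
    have h3 : (m * D : ℤ) * ((X z).card : ℤ) ≤ m * D * (2 * (P z).card) := by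
      linarith
    have h4 := le_of_mul_le_mul_left h3 hmD
    exact_mod_cast h4
  refine ⟨P, hP, ?_, hstep1, ?_⟩
  · by_contra hcon
    push Not at hcon
    have hempty : ∀ z, P z = ∅ := hcon
    have hS : clS P = 0 := by
      unfold clS
      exact Finset.sum_eq_zero (fun z _ => by rw [hempty z, Finset.card_empty])
    unfold clPsi at hΨpos
    rw [hS] at hΨpos
    have h1 : (0 : ℤ) ≤ m * D * (clB X P : ℤ) := by positivity
    have h2 : (0 : ℤ) ≤ 2 * q * (2 * m * (clA P m : ℤ) + (clC P m : ℤ)) := by positivity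
    simp only [Nat.cast_zero, mul_zero] at hΨpos
    linarith
  · intro z x hx
    by_contra hcon
    rw [not_lt] at hcon
    set P' : ι → Finset α := Function.update P z ((P z).erase x) with hP'
    have hz' : P' z = (P z).erase x := Function.update_self _ _ _
    have hne : ∀ v, v ≠ z → P' v = P v := fun v hv => Function.update_of_ne hv _ _
    have hsub : ∀ v, P' v ⊆ P v := by
      intro v
      by_cases h : v = z
      · subst h; rw [hz']; exact Finset.erase_subset _ _
      · rw [hne v h]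
    have h1 := hbest P' (fun v => (hsub v).trans (hP v))
    have hS := cl_sum_update (fun v => (P v).card) (fun v => (P' v).card) z
      (fun v hv => by simp only [hne v hv])
    have hcard : (P' z).card + 1 = (P z).card := by
      rw [hz', Finset.card_erase_of_mem hx]
      have : 0 < (P z).card := Finset.card_pos.2 ⟨x, hx⟩
      omega
    have hS' : (clS P' : ℤ) + 1 = clS P := by
      have : clS P' + 1 = clS P := by
        unfold clS
        omega
      exact_mod_cast this
    have hB' : (clB X P' : ℤ) ≤ clB X P := by exact_mod_cast clB_mono hsub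
    set S1 := (bad P m z x).filter (fun y => clCnt P x y ≤ 2 * m) with hS1
    set S2 := (bad P m z x).filter (fun y => ¬ clCnt P x y ≤ 2 * m) with hS2
    have hS12 : S1.card + S2.card = (bad P m z x).card :=
      Finset.card_filter_add_card_filter_not _
    set G := univ.filter (fun v => v ≠ z ∧ x ∈ P v ∧ (P v ∩ P z).card < m) with hGdef
    have hG : ∀ v, v ∈ G ↔ v ≠ z ∧ x ∈ P v ∧ (P v ∩ P z).card < m := by
      intro v
      rw [hGdef, mem_filter]
      simp
    have hbadmem : ∀ y ∈ bad P m z x, y ∈ P z ∧ y ≠ x ∧ (cen P m z x y).card < m := by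
      intro y hy
      unfold bad at hy
      rw [mem_filter] at hy
      exact hy
    have hA := clA_drop hx hz' hne m S1 (by
      intro y hy
      rw [hS1, mem_filter] at hy
      exact ⟨(hbadmem y hy.1).1, (hbadmem y hy.1).2.1, hy.2⟩)
    have hC := clC_drop hx hz' hne m G (fun v hv => (hG v).1 hv)
    have hcnt := cl_count hx m S2 G hG (by
      intro y hy
      rw [hS2, mem_filter] at hy
      exact ⟨(hbadmem y hy.1).1, (hbadmem y hy.1).2.1, (hbadmem y hy.1).2.2, not_le.1 hy.2⟩)
    rw [← Finset.mul_sum] at hC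
    have hA' : (clA P' m : ℤ) + 2 * S1.card ≤ clA P m := by exact_mod_cast hA
    have hC' : (clC P' m : ℤ) + 4 * (m * S2.card) ≤ clC P m := by
      have : clC P' m + 4 * (m * S2.card) ≤ clC P m := by omega
      exact_mod_cast this
    have hS12' : (S1.card : ℤ) + S2.card = (bad P m z x).card := by exact_mod_cast hS12
    have hcon' : ((P z).card : ℤ) ≤ q * (bad P m z x).card := by exact_mod_cast hcon
    have hXP : (D : ℤ) ≤ 2 * (P z).card := by
      exact_mod_cast (hD z).trans (hstep1 z ⟨x, hx⟩)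
    unfold clPsi at h1
    have h2 : (2 * q : ℤ) * (2 * m * (clA P' m : ℤ) + (clC P' m : ℤ) +
        4 * m * (bad P m z x).card) ≤ 2 * q * (2 * m * (clA P m : ℤ) + (clC P m : ℤ)) := by
      refine mul_le_mul_of_nonneg_left ?_ (by positivity)
      have := mul_le_mul_of_nonneg_left hA' (show (0 : ℤ) ≤ 2 * m by positivity)
      rw [← hS12']
      linarith
    have h3 : (m * D : ℤ) * (clB X P' : ℤ) ≤ m * D * (clB X P : ℤ) :=
      mul_le_mul_of_nonneg_left hB' hmD.le
    have h4 : (8 * m : ℤ) * (P z).card ≤ 8 * m * (q * (bad P m z x).card) :=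
      mul_le_mul_of_nonneg_left hcon' (by positivity)
    have h5 : (4 * m : ℤ) * D ≤ 4 * m * (2 * (P z).card) :=
      mul_le_mul_of_nonneg_left hXP (by positivity)
    rw [← hS'] at h1
    linarith

end Pool.Agent.Helper60.RS
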