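import Mathlib
import Pool.Agent.Helper60.RS.Defs

/-!
# CORE: a set without large independent subsets has a subset of large minimum degree

Proof. Suppose every nonempty `X ⊆ Y` has an `x ∈ X` with fewer than `k` neighbours in `X`. By
strong induction on `|X|`, every `X ⊆ Y` contains an independent `I` with `|X| ≤ k |I|`: take such
an `x`, apply induction to `X` minus `x` and its neighbours, add `x`. For `X = Y` this contradicts
the hypothesis.
-/

open Finset

namespace Pool.Agent.Helper60.RS

theorem exists_core {α : Type*} [Fintype α] [DecidableEq α] (F : SimpleGraph α) (Y : Finset α)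
    (k : ℕ) (h : ∀ I ⊆ Y, (∀ x ∈ I, ∀ y ∈ I, ¬ F.Adj x y) → k * I.card < Y.card) :
    ∃ X ⊆ Y, X.Nonempty ∧ ∀ x ∈ X, k ≤ (nb F X x).card := by
  classical
  by_contra hcon
  push Not at hcon
  have key : ∀ n : ℕ, ∀ X ⊆ Y, X.card ≤ n → ∃ I ⊆ X, (∀ x ∈ I, ∀ y ∈ I, ¬ F.Adj x y) ∧
      X.card ≤ k * I.card := by
    intro n
    induction n with
    | zero =>
      intro X _ hX
      exact ⟨∅, by simp, by simp, by simpa using hX⟩
    | succ n ih =>
      intro X hXY hXn
      rcases X.eq_empty_or_nonempty with rfl | hX
      · exact ⟨∅, by simp, by simp, by simp⟩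
      obtain ⟨v, hv, hlt⟩ := hcon X hXY hX
      set R := insert v (nb F X v) with hR
      have hRc : R.card ≤ k := (Finset.card_insert_le _ _).trans (by omega)
      have hvR : v ∈ R := Finset.mem_insert_self _ _
      have hlt' : (X \ R).card < X.card := by
        refine Finset.card_lt_card ⟨Finset.sdiff_subset, fun h => ?_⟩
        exact (Finset.mem_sdiff.1 (h hv)).2 hvR
      obtain ⟨I, hIX, hI, hIc⟩ := ih (X \ R) (Finset.sdiff_subset.trans hXY) (by omega)
      have hvI : v ∉ I := fun h => (Finset.mem_sdiff.1 (hIX h)).2 hvR
      have hadj : ∀ y ∈ I, ¬ F.Adj v y := by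
        intro y hy hvy
        have h1 := Finset.mem_sdiff.1 (hIX hy)
        exact h1.2 (Finset.mem_insert_of_mem (mem_nb.mpr ⟨h1.1, hvy⟩))
      refine ⟨insert v I, ?_, ?_, ?_⟩
      · exact Finset.insert_subset hv (hIX.trans Finset.sdiff_subset)
      · intro x hx y hy
        rw [Finset.mem_insert] at hx hy
        rcases hx with rfl | hx <;> rcases hy with rfl | hy
        · exact F.loopless.irrefl _
        · exact hadj y hy
        · intro h; exact hadj x hx h.symm
        · exact hI x hx y hy
      · rw [Finset.card_insert_of_notMem hvI]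
        have h1 : X.card ≤ (X \ R).card + R.card := by
          have := Finset.card_le_card (show X ⊆ (X \ R) ∪ R by
            intro x hx
            by_cases h : x ∈ R
            · exact Finset.mem_union_right _ h
            · exact Finset.mem_union_left _ (Finset.mem_sdiff.2 ⟨hx, h⟩))
          exact this.trans (Finset.card_union_le _ _)
        have h2 : k * (I.card + 1) = k * I.card + k := by ring
        omega
  obtain ⟨I, hIY, hI, hIc⟩ := key Y.card Y (Finset.Subset.refl _) le_rfl
  have := h I hIY hI
  omega

end Pool.Agent.Helper60.RS
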