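import Mathlib
import Pool.Agent.Helper60.RS.Defs

/-!
# DENS: low density graphs are built

`Bd G S` is proved for all finsets `S` by strong induction on `|S|`. If some `v ∈ S` has at most
one neighbour in `S`, use `Bd.leaf`. Otherwise let `V2` (`V3`) be the vertices of `S` with exactly
two (at least three) neighbours in `S`. A dart is an ordered pair `(u, v)` of adjacent vertices of
`S`. Let `(u, v)` be a dart with `u ∈ V2`; put `a 0 = v`, `a 1 = u`, and as long as `a i ∈ V2`, let
`a (i+1)` be the neighbour of `a i` in `S` other than `a (i-1)`.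

Claim: if there is no `Bd.ear` or `Bd.cone` step leading to `S` from a smaller set, then one of
`a 2, ..., a 14` is in `V3`. Suppose `a 1, ..., a 14` are all in `V2`. If `a 0, ..., a 14` are
distinct, then `a 0, ..., a 14` is an ear: `S` minus `{a 1, ..., a 13}` satisfies the hypotheses of
`Bd.ear`. Otherwise let `r ≤ 14` be minimal with `a r = a s` for some `s < r`. If `s ≥ 1`, then
`a (r-1)` is a neighbour of `a s`, so it is `a (s-1)` or `a (s+1)`, so by minimality
`r - 1 = s + 1`, i.e. `a (s+2) = a s`, impossible by the choice of `a (s+2)`. So `s = 0`, `r ≥ 3`,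
and `{a 0, ..., a (r-1)}` is a cycle all of whose vertices have degree 2 in `S`, which is
`insert (a 0) T` with `T = {a 1, ..., a (r-1)}` a path: `Bd.cone` applies to `S` minus it.

Counting: mapping the dart `(u, v)` to the dart `(a (j+1), a j)` with `a (j+1) ∈ V3`, `a i ∈ V2`
for `1 ≤ i ≤ j`, together with `j ∈ {1, ..., 13}`, is injective (walk back `j` steps). So
`2 |V2| ≤ 13 σ`, `σ = ∑_{v ∈ V3} deg v ≥ 3 |V3|`, `pairs G S = 2 |V2| + σ`, and
`41 pairs G S ≥ 84 |S|`: indeed `41 (2|V2| + σ) - 84 (|V2| + |V3|) = 41 σ - 2 |V2| - 84 |V3| ≥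
41 σ - 13 σ - 28 σ = 0`. This contradicts the hypothesis if `S` is nonempty.
-/

open Finset

namespace Pool.Agent.Helper60.RS

section Walk

variable {V : Type*} [Fintype V] [DecidableEq V]

/-- A long walk through vertices of degree two gives an ear or a cone. -/
private lemma h24_walk (G : SimpleGraph V) (S : Finset V)
    (IH : ∀ S' : Finset V, S'.card < S.card → Bd G S') (a : ℕ → V)
    (hS : ∀ i < 14, a (i + 1) ∈ S)
    (hnb : ∀ i < 14, ∀ v, v ∈ nb G S (a (i + 1)) ↔ v = a i ∨ v = a (i + 2))
    (hne : ∀ i < 14, a i ≠ a (i + 2)) : Bd G S := by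
  have h0 : a 0 ∈ S := (mem_nb.1 ((hnb 0 (by norm_num) (a 0)).2 (Or.inl rfl))).1
  have hmem : ∀ i ≤ 14, a i ∈ S := by
    intro i hi
    rcases Nat.eq_zero_or_pos i with h | h
    · rw [h]
      exact h0
    · have h1 := hS (i - 1) (by omega)
      rwa [Nat.sub_add_cancel h] at h1
  have hadj : ∀ i < 14, G.Adj (a (i + 1)) (a i) := fun i hi =>
    (mem_nb.1 ((hnb i hi (a i)).2 (Or.inl rfl))).2
  have hnb' : ∀ i, 0 < i → i ≤ 14 → ∀ v, v ∈ S → G.Adj (a i) v →
      v = a (i - 1) ∨ v = a (i + 1) := by
    intro i hi1 hi2 v hv hadj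
    have h1 := (hnb (i - 1) (by omega) v).1 (by
      rw [Nat.sub_add_cancel hi1]
      exact mem_nb.2 ⟨hv, hadj⟩)
    have e : i - 1 + 2 = i + 1 := by omega
    rwa [e] at h1
  by_cases hinj : ∀ i ≤ 14, ∀ j ≤ 14, a i = a j → i = j
  · -- an ear
    set I := (Finset.Ioo 0 14).image a with hI
    have hIS : I ⊆ S := by
      intro x hx
      obtain ⟨i, hi, rfl⟩ := Finset.mem_image.1 hx
      rw [Finset.mem_Ioo] at hi
      exact hmem i (by omega)
    have ha1 : a 1 ∈ I := Finset.mem_image.2 ⟨1, by simp, rfl⟩
    have hcard : (S \ I).card < S.card :=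
      Finset.card_lt_card (Finset.sdiff_ssubset hIS ⟨a 1, ha1⟩)
    have hnotI : ∀ k ≤ 14, (k = 0 ∨ k = 14) → a k ∉ I := by
      intro k hk hk2 h1
      obtain ⟨i, hi, e⟩ := Finset.mem_image.1 h1
      rw [Finset.mem_Ioo] at hi
      have h2 := hinj i (by omega) k hk e
      omega
    have key := Bd.ear (S \ I) a (IH _ hcard) hinj
      (Finset.mem_sdiff.2 ⟨h0, hnotI 0 (by norm_num) (Or.inl rfl)⟩)
      (Finset.mem_sdiff.2 ⟨hmem 14 le_rfl, hnotI 14 le_rfl (Or.inr rfl)⟩)
      (fun i hi1 hi2 h1 => (Finset.mem_sdiff.1 h1).2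
        (Finset.mem_image.2 ⟨i, Finset.mem_Ioo.2 ⟨hi1, hi2⟩, rfl⟩))
      (fun i hi1 hi2 v hv hadj => hnb' i hi1 (by omega) v (by
        rcases hv with hv | ⟨j, hj1, hj2, rfl⟩
        · exact (Finset.mem_sdiff.1 hv).1
        · exact hmem j (by omega)) hadj)
    have e : S \ I ∪ (Finset.Ioo 0 14).image a = S := Finset.sdiff_union_of_subset hIS
    rwa [e] at key
  · -- a cone
    have hex : ∃ r, r ≤ 14 ∧ ∃ s < r, a r = a s := by
      push Not at hinj
      obtain ⟨i, hi, j, hj, hij, hne'⟩ := hinj
      rcases Nat.lt_or_gt_of_ne hne' with h | h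
      · exact ⟨j, hj, i, h, hij.symm⟩
      · exact ⟨i, hi, j, h, hij⟩
    have hex' : ∃ r, ∃ s < r, a r = a s := by
      obtain ⟨r, -, h⟩ := hex
      exact ⟨r, h⟩
    set r := Nat.find hex' with hr
    have hr14 : r ≤ 14 := by
      obtain ⟨r', h1, h2⟩ := hex
      exact (Nat.find_min' hex' h2).trans h1
    obtain ⟨s, hsr, hrs⟩ := Nat.find_spec hex'
    rw [← hr] at hsr hrs
    have hmin : ∀ i j, i < j → j < r → a j ≠ a i := by
      intro i j hij hjr h
      exact Nat.find_min hex' hjr ⟨i, hij, h⟩
    have hs0 : s = 0 := by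
      by_contra hs
      have hs1 : 0 < s := Nat.pos_of_ne_zero hs
      have h1 : G.Adj (a r) (a (r - 1)) := by
        have h2 := hadj (r - 1) (by omega)
        rwa [Nat.sub_add_cancel (by omega)] at h2
      rw [hrs] at h1
      rcases hnb' s hs1 (by omega) (a (r - 1)) (hmem _ (by omega)) h1 with h2 | h2
      · exact hmin (s - 1) (r - 1) (by omega) (by omega) h2
      · rcases Nat.lt_trichotomy (s + 1) (r - 1) with h3 | h3 | h3
        · exact hmin (s + 1) (r - 1) h3 (by omega) h2
        · have h4 := hne s (by omega)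
          have e : s + 2 = r := by omega
          rw [e] at h4
          exact h4 hrs.symm
        · have e : s + 1 = r := by omega
          rw [e, hrs] at h2
          rw [h2] at h1
          exact h1.ne rfl
    rw [hs0] at hrs
    have hr3 : 3 ≤ r := by
      by_contra h
      have h1 : r = 1 ∨ r = 2 := by omega
      rcases h1 with h1 | h1
      · rw [h1] at hrs
        have h2 := hadj 0 (by norm_num)
        rw [zero_add, hrs] at h2
        exact h2.ne rfl
      · rw [h1] at hrs
        exact hne 0 (by norm_num) hrs.symm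
    set T := (Finset.Ico 1 r).image a with hT
    set S' := S \ insert (a 0) T with hS'
    have hTS : insert (a 0) T ⊆ S := by
      intro x hx
      rw [Finset.mem_insert] at hx
      rcases hx with rfl | hx
      · exact h0
      · obtain ⟨i, hi, rfl⟩ := Finset.mem_image.1 hx
        rw [Finset.mem_Ico] at hi
        exact hmem i (by omega)
    have hmemT : ∀ i, 1 ≤ i → i < r → a i ∈ T := fun i h1 h2 =>
      Finset.mem_image.2 ⟨i, Finset.mem_Ico.2 ⟨h1, h2⟩, rfl⟩
    have hmemC : ∀ i, i ≤ r → a i ∈ insert (a 0) T := by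
      intro i hi
      rw [Finset.mem_insert]
      rcases Nat.eq_zero_or_pos i with h1 | h1
      · left
        rw [h1]
      · rcases Nat.lt_or_ge i r with h2 | h2
        · right
          exact hmemT i h1 h2
        · left
          have e : i = r := by omega
          rw [e, hrs]
    have ha0T : a 0 ∉ T := by
      intro h1
      obtain ⟨i, hi, e⟩ := Finset.mem_image.1 h1
      rw [Finset.mem_Ico] at hi
      exact hmin 0 i (by omega) hi.2 e
    have hcard : S'.card < S.card :=
      Finset.card_lt_card (Finset.sdiff_ssubset hTS ⟨a 0, Finset.mem_insert_self _ _⟩)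
    have hnbC : ∀ x ∈ insert (a 0) T, ∀ y ∈ S, G.Adj x y → y ∈ insert (a 0) T := by
      have hmain : ∀ i, 1 ≤ i → i < r → ∀ y ∈ S, G.Adj (a i) y → y ∈ insert (a 0) T := by
        intro i h1 h2 y hy hadj'
        rcases hnb' i h1 (by omega) y hy hadj' with h3 | h3
        · rw [h3]
          exact hmemC _ (by omega)
        · rw [h3]
          exact hmemC _ (by omega)
      intro x hx y hy hxy
      rw [Finset.mem_insert] at hx
      rcases hx with rfl | hx
      · rw [← hrs] at hxy
        have h1 : a 1 = a (r - 1) ∨ a 1 = a (r + 1) := by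
          refine hnb' r (by omega) hr14 (a 1) (hmem 1 (by norm_num)) ?_
          rw [hrs]
          have h2 := hadj 0 (by norm_num)
          rw [zero_add] at h2
          exact h2.symm
        have h2 : a (r + 1) = a 1 := by
          rcases h1 with h1 | h1
          · exact absurd h1.symm (hmin 1 (r - 1) (by omega) (by omega))
          · exact h1.symm
        rcases hnb' r (by omega) hr14 y hy hxy with h3 | h3
        · rw [h3]
          exact hmemC _ (by omega)
        · rw [h3, h2]
          exact hmemC 1 (by omega)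
      · obtain ⟨i, hi, rfl⟩ := Finset.mem_image.1 hx
        rw [Finset.mem_Ico] at hi
        exact hmain i hi.1 hi.2 y hy hxy
    have hFo : ∀ k, k < r → Fo G ((Finset.Ico 1 (k + 1)).image a) := by
      intro k
      induction k with
      | zero =>
        intro _
        simp only [zero_add, Finset.Ico_self, Finset.image_empty]
        exact Fo.empty
      | succ k ihk =>
        intro hk
        have h1 := ihk (by omega)
        have e : (Finset.Ico 1 (k + 1 + 1)).image a =
            insert (a (k + 1)) ((Finset.Ico 1 (k + 1)).image a) := by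
          rw [← Finset.image_insert]
          congr 1
          ext x
          simp only [Finset.mem_Ico, Finset.mem_insert]
          omega
        rw [e]
        refine Fo.leaf _ _ h1 ?_ ?_
        · intro h2
          obtain ⟨i, hi, e'⟩ := Finset.mem_image.1 h2
          rw [Finset.mem_Ico] at hi
          exact hmin i (k + 1) (by omega) hk e'.symm
        · have hsub : nb G ((Finset.Ico 1 (k + 1)).image a) (a (k + 1)) ⊆ {a k} := by
            intro x hx
            rw [mem_nb] at hx
            obtain ⟨i, hi, rfl⟩ := Finset.mem_image.1 hx.1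
            rw [Finset.mem_Ico] at hi
            rw [Finset.mem_singleton]
            rcases hnb' (k + 1) (by omega) (by omega) (a i) (hmem i (by omega)) hx.2 with h3 | h3
            · rw [Nat.add_sub_cancel] at h3
              exact h3
            · exfalso
              rcases Nat.lt_or_ge (k + 2) r with h4 | h4
              · exact hmin i (k + 2) (by omega) h4 h3.symm
              · have e' : k + 1 + 1 = r := by omega
                rw [e', hrs] at h3
                exact hmin 0 i (by omega) (by omega) h3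
          exact (Finset.card_le_card hsub).trans (by simp)
    have hFoT : Fo G T := by
      have h1 := hFo (r - 1) (by omega)
      rwa [Nat.sub_add_cancel (by omega)] at h1
    have hdisj : Disjoint T S' := by
      rw [Finset.disjoint_left]
      intro x hx hx'
      exact (Finset.mem_sdiff.1 hx').2 (Finset.mem_insert_of_mem hx)
    have key := Bd.cone S' T (a 0) (IH _ hcard) hFoT hdisj
      (fun h1 => (Finset.mem_sdiff.1 h1).2 (Finset.mem_insert_self _ _)) ha0T
      (fun x hx y hy hxy => (Finset.mem_sdiff.1 hy).2 (hnbC x hx y (Finset.mem_sdiff.1 hy).1 hxy))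
    have e : insert (a 0) (T ∪ S') = S := by
      rw [← Finset.insert_union, hS']
      exact Finset.union_sdiff_of_subset hTS
    rwa [e] at key

open Classical in
/-- The neighbour of `u` in `S` other than `v`. -/
private noncomputable def h24_oth (G : SimpleGraph V) (S : Finset V) (u v : V) : V :=
  if h : ((nb G S u).erase v).Nonempty then h.choose else u

private lemma h24_oth_spec (G : SimpleGraph V) (S : Finset V) {u v : V}
    (h2 : (nb G S u).card = 2) (hv : v ∈ nb G S u) :
    h24_oth G S u v ≠ v ∧ ∀ w, w ∈ nb G S u ↔ w = v ∨ w = h24_oth G S u v := by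
  have h1 : ((nb G S u).erase v).card = 1 := by
    rw [Finset.card_erase_of_mem hv, h2]
  have hne : ((nb G S u).erase v).Nonempty := by
    rw [← Finset.card_pos, h1]
    norm_num
  have hmem : h24_oth G S u v ∈ (nb G S u).erase v := by
    unfold h24_oth
    rw [dif_pos hne]
    exact hne.choose_spec
  obtain ⟨z, hz⟩ := Finset.card_eq_one.1 h1
  have hz' : h24_oth G S u v = z := by
    rw [hz] at hmem
    exact Finset.mem_singleton.1 hmem
  refine ⟨(Finset.mem_erase.1 hmem).1, fun w => ⟨fun hw => ?_, fun hw => ?_⟩⟩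
  · by_cases hwv : w = v
    · exact Or.inl hwv
    · right
      have h3 : w ∈ (nb G S u).erase v := Finset.mem_erase.2 ⟨hwv, hw⟩
      rw [hz, Finset.mem_singleton] at h3
      rw [hz', h3]
  · rcases hw with rfl | rfl
    · exact hv
    · exact (Finset.mem_erase.1 hmem).2

/-- The next dart. -/
private noncomputable def h24_f (G : SimpleGraph V) (S : Finset V) (d : Σ _ : V, V) : Σ _ : V, V :=
  ⟨h24_oth G S d.1 d.2, d.1⟩

private lemma h24_iter_inj {β : Type*} (f : β → β) (D : Set β) (hf : Set.InjOn f D) (j : ℕ) :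
    ∀ d d' : β, (∀ i < j, f^[i] d ∈ D) → (∀ i < j, f^[i] d' ∈ D) → f^[j] d = f^[j] d' →
      d = d' := by
  induction j with
  | zero => intro d d' _ _ h; exact h
  | succ j ih =>
    intro d d' h1 h2 h
    rw [Function.iterate_succ_apply', Function.iterate_succ_apply'] at h
    exact ih d d' (fun i hi => h1 i (by omega)) (fun i hi => h2 i (by omega))
      (hf (h1 j (by omega)) (h2 j (by omega)) h)

/-- Counting: if no long walk stays in the vertices of degree two, then there are few of them. -/
private lemma h24_count (G : SimpleGraph V) (S V2 V3 : Finset V)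
    (hV2 : ∀ u, u ∈ V2 ↔ u ∈ S ∧ (nb G S u).card = 2)
    (hV3 : ∀ u, u ∈ V3 ↔ u ∈ S ∧ 3 ≤ (nb G S u).card)
    (hdeg : ∀ u ∈ S, 2 ≤ (nb G S u).card)
    (hno : ∀ d ∈ V2.sigma (fun u => nb G S u), ∃ i < 14,
      (h24_f G S)^[i] d ∉ V2.sigma (fun u => nb G S u)) :
    (V2.sigma (fun u => nb G S u)).card ≤ 13 * (V3.sigma (fun u => nb G S u)).card := by
  set D2 := V2.sigma (fun u => nb G S u) with hD2
  set D3 := V3.sigma (fun u => nb G S u) with hD3
  set f := h24_f G S with hf
  have hfmap : ∀ d ∈ D2, f d ∈ D2 ∨ f d ∈ D3 := by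
    intro d hd
    rw [hD2, Finset.mem_sigma] at hd
    have hu := (hV2 d.1).1 hd.1
    have hsp := h24_oth_spec G S hu.2 hd.2
    have hw : h24_oth G S d.1 d.2 ∈ nb G S d.1 := (hsp.2 _).2 (Or.inr rfl)
    rw [mem_nb] at hw
    have h3 : d.1 ∈ nb G S (h24_oth G S d.1 d.2) := mem_nb.2 ⟨hu.1, hw.2.symm⟩
    have h4 := hdeg _ hw.1
    rcases Nat.lt_or_ge 2 ((nb G S (h24_oth G S d.1 d.2)).card) with h5 | h5
    · right
      rw [hD3, Finset.mem_sigma]
      exact ⟨(hV3 _).2 ⟨hw.1, h5⟩, h3⟩
    · left
      have h6 : (nb G S (h24_oth G S d.1 d.2)).card = 2 := by omega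
      rw [hD2, Finset.mem_sigma]
      exact ⟨(hV2 _).2 ⟨hw.1, h6⟩, h3⟩
  have hfinj : Set.InjOn f (D2 : Set (Σ _ : V, V)) := by
    rintro ⟨u, v⟩ hd ⟨u', v'⟩ hd' h
    rw [Finset.mem_coe, hD2, Finset.mem_sigma] at hd hd'
    have e1 : u = u' := by
      have h1 := congrArg Sigma.snd h
      exact h1
    subst e1
    have e2 : h24_oth G S u v = h24_oth G S u v' := congrArg Sigma.fst h
    have hu := (hV2 u).1 hd.1
    have s1 := h24_oth_spec G S hu.2 hd.2
    have s2 := h24_oth_spec G S hu.2 hd'.2
    have h3 := (s2.2 v).1 hd.2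
    rcases h3 with h3 | h3
    · simp only at h3
      rw [h3]
    · exfalso
      simp only at h3 e2
      rw [← e2] at h3
      exact s1.1 h3.symm
  classical
  have hex : ∀ d ∈ D2, ∃ i, f^[i] d ∉ D2 := fun d hd => by
    obtain ⟨i, -, h⟩ := hno d hd
    exact ⟨i, h⟩
  let J : (Σ _ : V, V) → ℕ := fun d => if h : ∃ i, f^[i] d ∉ D2 then Nat.find h else 0
  have hJ : ∀ d ∈ D2, (∀ i < J d, f^[i] d ∈ D2) ∧ 1 ≤ J d ∧ J d ≤ 13 ∧ f^[J d] d ∈ D3 := by
    intro d hd
    have h1 := hex d hd
    have e : J d = Nat.find h1 := dif_pos h1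
    have hlt : ∀ i < J d, f^[i] d ∈ D2 := by
      intro i hi
      rw [e] at hi
      by_contra h2
      exact Nat.find_min h1 hi h2
    have hnot : f^[J d] d ∉ D2 := by
      rw [e]
      exact Nat.find_spec h1
    have hge : 1 ≤ J d := by
      by_contra h2
      have h3 : J d = 0 := by omega
      rw [h3] at hnot
      exact hnot hd
    have hle : J d ≤ 13 := by
      obtain ⟨i, hi, h2⟩ := hno d hd
      have h3 : J d ≤ i := by
        rw [e]
        exact Nat.find_min' h1 h2
      omega
    refine ⟨hlt, hge, hle, ?_⟩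
    have h4 := hfmap _ (hlt (J d - 1) (by omega))
    rw [← Function.iterate_succ_apply' f (J d - 1) d] at h4
    have e2 : (J d - 1).succ = J d := by omega
    rw [e2] at h4
    rcases h4 with h4 | h4
    · exact absurd h4 hnot
    · exact h4
  have hcard : D2.card ≤ ((Finset.Icc 1 13) ×ˢ D3).card := by
    refine Finset.card_le_card_of_injOn (fun d => (J d, f^[J d] d)) ?_ ?_
    · intro d hd
      rw [Finset.mem_coe] at hd
      obtain ⟨-, h1, h2, h3⟩ := hJ d hd
      rw [Finset.mem_coe, Finset.mem_product]
      exact ⟨Finset.mem_Icc.2 ⟨h1, h2⟩, h3⟩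
    · intro d hd d' hd' h
      rw [Finset.mem_coe] at hd hd'
      rw [Prod.mk.injEq] at h
      obtain ⟨h1, -, -, -⟩ := hJ d hd
      obtain ⟨h1', -, -, -⟩ := hJ d' hd'
      have h2 := h.2
      rw [← h.1] at h2 h1'
      exact h24_iter_inj f (D2 : Set (Σ _ : V, V)) hfinj (J d) d d' (fun i hi => h1 i hi)
        (fun i hi => h1' i hi) h2
  rw [Finset.card_product, Nat.card_Icc] at hcard
  simpa using hcard

end Walk

theorem build_of_density {V : Type*} [Fintype V] [DecidableEq V] (G : SimpleGraph V)
    (h : ∀ S : Finset V, S.Nonempty → 41 * pairs G S < 84 * S.card) : Bd G univ := by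
  classical
  suffices hmain : ∀ (n : ℕ) (S : Finset V), S.card = n → Bd G S from hmain _ univ rfl
  intro n
  induction n using Nat.strong_induction_on with
  | _ n ih =>
    intro S hSn
    have IH : ∀ S' : Finset V, S'.card < S.card → Bd G S' := fun S' hS' =>
      ih S'.card (by omega) S' rfl
    rcases S.eq_empty_or_nonempty with rfl | hne
    · exact Bd.empty
    by_cases hleaf : ∃ v ∈ S, (nb G S v).card ≤ 1
    · obtain ⟨v, hv, h1⟩ := hleaf
      have h2 := Bd.leaf (S.erase v) v (IH _ (Finset.card_erase_lt_of_mem hv))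
        (Finset.notMem_erase v S)
        ((Finset.card_le_card (nb_mono (Finset.erase_subset v S) v)).trans h1)
      rwa [Finset.insert_erase hv] at h2
    push Not at hleaf
    have hdeg : ∀ u ∈ S, 2 ≤ (nb G S u).card := fun u hu => hleaf u hu
    set V2 := S.filter (fun u => (nb G S u).card = 2) with hV2
    set V3 := S.filter (fun u => 3 ≤ (nb G S u).card) with hV3
    have hV2' : ∀ u, u ∈ V2 ↔ u ∈ S ∧ (nb G S u).card = 2 := fun u => Finset.mem_filter
    have hV3' : ∀ u, u ∈ V3 ↔ u ∈ S ∧ 3 ≤ (nb G S u).card := fun u => Finset.mem_filter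
    by_cases hno : ∀ d ∈ V2.sigma (fun u => nb G S u), ∃ i < 14,
      (h24_f G S)^[i] d ∉ V2.sigma (fun u => nb G S u)
    · exfalso
      have hc := h24_count G S V2 V3 hV2' hV3' hdeg hno
      rw [Finset.card_sigma, Finset.card_sigma] at hc
      have e2 : ∑ u ∈ V2, (nb G S u).card = 2 * V2.card := by
        rw [Finset.sum_congr rfl fun u hu => ((hV2' u).1 hu).2, Finset.sum_const, smul_eq_mul,
          mul_comm]
      have e3 : 3 * V3.card ≤ ∑ u ∈ V3, (nb G S u).card := by
        rw [mul_comm, ← smul_eq_mul, ← Finset.sum_const]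
        exact Finset.sum_le_sum fun u hu => ((hV3' u).1 hu).2
      have hunion : V2 ∪ V3 = S := by
        ext u
        rw [Finset.mem_union, hV2', hV3']
        constructor
        · rintro (h1 | h1)
          · exact h1.1
          · exact h1.1
        · intro hu
          have h1 := hdeg u hu
          by_cases h2 : (nb G S u).card = 2
          · exact Or.inl ⟨hu, h2⟩
          · exact Or.inr ⟨hu, by omega⟩
      have hdisj : Disjoint V2 V3 := by
        rw [Finset.disjoint_left]
        intro u hu hu'
        have h1 := ((hV2' u).1 hu).2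
        have h2 := ((hV3' u).1 hu').2
        omega
      have hp : pairs G S = ∑ u ∈ V2, (nb G S u).card + ∑ u ∈ V3, (nb G S u).card := by
        unfold pairs
        rw [← Finset.sum_union hdisj, hunion]
      have hcard : S.card = V2.card + V3.card := by
        rw [← Finset.card_union_of_disjoint hdisj, hunion]
      have hd := h S hne
      rw [hp, hcard, e2] at hd
      rw [e2] at hc
      omega
    · push Not at hno
      obtain ⟨d, -, hd⟩ := hno
      let a : ℕ → V := fun i => Nat.casesOn i d.2 (fun i => ((h24_f G S)^[i] d).1)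
      have ha0 : a 0 = d.2 := rfl
      have ha1 : ∀ i, a (i + 1) = ((h24_f G S)^[i] d).1 := fun i => rfl
      have hsnd : ∀ i, ((h24_f G S)^[i] d).2 = a i := by
        intro i
        cases i with
        | zero => rfl
        | succ i =>
          rw [Function.iterate_succ_apply']
          rfl
      have ha2 : ∀ i, a (i + 2) = h24_oth G S (a (i + 1)) (a i) := by
        intro i
        have e1 : a (i + 2) = ((h24_f G S)^[i + 1] d).1 := rfl
        rw [e1, Function.iterate_succ_apply', ← hsnd i]
        rfl
      have hin : ∀ i < 14, a (i + 1) ∈ V2 ∧ a i ∈ nb G S (a (i + 1)) := by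
        intro i hi
        have h1 := hd i hi
        rw [Finset.mem_sigma, hsnd i] at h1
        exact h1
      refine h24_walk G S IH a (fun i hi => ((hV2' _).1 (hin i hi).1).1) ?_ ?_
      · intro i hi v
        rw [ha2]
        exact (h24_oth_spec G S ((hV2' _).1 (hin i hi).1).2 (hin i hi).2).2 v
      · intro i hi
        rw [ha2]
        exact (h24_oth_spec G S ((hV2' _).1 (hin i hi).1).2 (hin i hi).2).1.symm

end Pool.Agent.Helper60.RS
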