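import Mathlib
import Pool.Agent.Helper60.RS.Defs

/-!
# EDGES: `pairs` counts every edge inside `S` twice
-/

open Finset

namespace Pool.Agent.Helper60.RS

theorem pairs_eq_two_mul {V : Type*} [Fintype V] [DecidableEq V] (G : SimpleGraph V)
    (S : Finset V) : pairs G S = 2 * {e ∈ G.edgeSet | ∀ v ∈ e, v ∈ S}.ncard := by
  classical
  let H : SimpleGraph V :=
    { Adj := fun x y => G.Adj x y ∧ x ∈ S ∧ y ∈ S
      symm := ⟨fun x y h => ⟨h.1.symm, h.2.2, h.2.1⟩⟩
      loopless := ⟨fun x h => G.loopless.irrefl x h.1⟩ }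
  have hadj : ∀ x y, H.Adj x y ↔ G.Adj x y ∧ x ∈ S ∧ y ∈ S := fun x y => Iff.rfl
  have hset : {e ∈ G.edgeSet | ∀ v ∈ e, v ∈ S} = H.edgeSet := by
    ext e
    induction e using Sym2.ind with
    | _ x y =>
      simp only [Set.mem_ofPred_eq, SimpleGraph.mem_edgeSet, hadj, Sym2.mem_iff, forall_eq_or_imp,
        forall_eq]
  have hdeg : ∀ x, H.degree x = if x ∈ S then (nb G S x).card else 0 := by
    intro x
    rw [← SimpleGraph.card_neighborFinset_eq_degree]
    split_ifs with h
    · congr 1
      ext y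
      rw [SimpleGraph.mem_neighborFinset, hadj, mem_nb]
      tauto
    · rw [Finset.card_eq_zero, Finset.eq_empty_iff_forall_notMem]
      intro y hy
      rw [SimpleGraph.mem_neighborFinset, hadj] at hy
      exact h hy.2.1
  rw [hset, Set.ncard_eq_toFinset_card', Set.toFinset_card]
  have h1 := H.sum_degrees_eq_twice_card_edges
  simp only [hdeg] at h1
  rw [Finset.sum_ite_mem, Finset.univ_inter] at h1
  rw [pairs, h1, SimpleGraph.edgeFinset, Set.toFinset_card]

end Pool.Agent.Helper60.RS
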