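import Mathlib
import Pool.Agent.Helper60.RS.Defs

/-!
# PATH: basic operations on ears
-/

open Finset

namespace Pool.Agent.Helper60.RS

variable {α : Type*} [Fintype α] [DecidableEq α] {F : SimpleGraph α}

theorem Ear.edge {Y W : Finset α} {a b : α} (h : F.Adj a b) : Ear F Y W 1 a b := by
  refine ⟨fun i => if i = 0 then a else b, by simp, by simp, ?_, ?_, ?_⟩
  · intro i hi
    obtain rfl : i = 0 := by omega
    simpa using h
  · intro i hi j hj hij
    have hne := h.ne
    have hi' : i = 0 ∨ i = 1 := by omega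
    have hj' : j = 0 ∨ j = 1 := by omega
    rcases hi' with rfl | rfl <;> rcases hj' with rfl | rfl
    · rfl
    · simp at hij
      exact absurd hij hne
    · simp at hij
      exact absurd hij.symm hne
    · rfl
  · intro i h0 h1
    omega

theorem Ear.mono {Y Y' W W' : Finset α} {L : ℕ} {a b : α} (hY : Y ⊆ Y') (hW : W' ⊆ W)
    (h : Ear F Y W L a b) : Ear F Y' W' L a b := by
  obtain ⟨p, h0, hL, hadj, hinj, hint⟩ := h
  exact ⟨p, h0, hL, hadj, hinj, fun i h1 h2 =>
    ⟨hY (hint i h1 h2).1, fun h3 => (hint i h1 h2).2 (hW h3)⟩⟩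

theorem Ear.symm {Y W : Finset α} {L : ℕ} {a b : α} (h : Ear F Y W L a b) :
    Ear F Y W L b a := by
  obtain ⟨p, h0, hL, hadj, hinj, hint⟩ := h
  refine ⟨fun i => p (L - i), ?_, ?_, ?_, ?_, ?_⟩
  · simpa using hL
  · simpa using h0
  · intro i hi
    have h1 := hadj (L - (i + 1)) (by omega)
    have h2 : L - (i + 1) + 1 = L - i := by omega
    rw [h2] at h1
    exact h1.symm
  · intro i hi j hj hij
    have h1 := hinj (L - i) (by omega) (L - j) (by omega) hij
    omega
  · intro i h1 h2
    exact hint (L - i) (by omega) (by omega)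

/-- Concatenation. The first ear avoids `b` and `W`; apply `h₂` to `W`, `a` and the interior of
the first ear (at most `|W| + 1 + (L₁ - 1)` vertices). -/
theorem Ear.trans {Y W : Finset α} {L₁ L₂ : ℕ} {a s b : α} (hs : s ∈ Y) (hsW : s ∉ W)
    (hsa : s ≠ a) (hsb : s ≠ b) (hab : a ≠ b) (h₁ : Ear F Y (insert b W) L₁ a s)
    (h₂ : ∀ W' : Finset α, W'.card ≤ W.card + L₁ → Ear F Y W' L₂ s b) (hL₁ : 0 < L₁)
    (hL₂ : 0 < L₂) : Ear F Y W (L₁ + L₂) a b := by
  obtain ⟨p, p0, pL, padj, pinj, pint⟩ := h₁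
  set W' : Finset α := W ∪ insert a ((Finset.Ioo 0 L₁).image p) with hW'
  have hcard : W'.card ≤ W.card + L₁ := by
    refine (Finset.card_union_le _ _).trans ?_
    have h1 := Finset.card_insert_le a ((Finset.Ioo 0 L₁).image p)
    have h2 : ((Finset.Ioo 0 L₁).image p).card ≤ (Finset.Ioo 0 L₁).card := Finset.card_image_le
    rw [Nat.card_Ioo] at h2
    omega
  obtain ⟨q, q0, qL, qadj, qinj, qint⟩ := h₂ W' hcard
  have hpW : ∀ i, i < L₁ → p i ∈ W' := by
    intro i hi
    rw [hW', Finset.mem_union, Finset.mem_insert, Finset.mem_image]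
    right
    rcases Nat.eq_zero_or_pos i with h0 | h0
    · left
      rw [h0, p0]
    · right
      exact ⟨i, Finset.mem_Ioo.2 ⟨h0, hi⟩, rfl⟩
  have hcross : ∀ i t, i ≤ L₁ → 0 < t → t ≤ L₂ → p i ≠ q t := by
    intro i t hi ht0 htL h
    rcases Nat.lt_or_ge i L₁ with h1 | h1
    · rcases Nat.lt_or_ge t L₂ with h2 | h2
      · exact (qint t ht0 h2).2 (h ▸ hpW i h1)
      · obtain rfl : t = L₂ := le_antisymm htL h2
        rw [qL] at h
        rcases Nat.eq_zero_or_pos i with h0 | h0
        · rw [h0, p0] at h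
          exact hab h
        · exact (pint i h0 h1).2 (h ▸ Finset.mem_insert_self b W)
    · obtain rfl : i = L₁ := le_antisymm hi h1
      rw [pL, ← q0] at h
      have h3 := qinj 0 (by omega) t htL h
      omega
  refine ⟨fun i => if i ≤ L₁ then p i else q (i - L₁), ?_, ?_, ?_, ?_, ?_⟩
  · simp [p0]
  · have h1 : ¬ (L₁ + L₂ ≤ L₁) := by omega
    simp only [h1, if_false]
    rw [Nat.add_sub_cancel_left]
    exact qL
  · intro i hi
    simp only
    rcases Nat.lt_trichotomy i L₁ with h1 | h1 | h1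
    · rw [if_pos h1.le, if_pos (by omega)]
      exact padj i h1
    · rw [if_pos h1.le, if_neg (by omega), h1, pL, ← q0, Nat.add_sub_cancel_left]
      exact qadj 0 hL₂
    · rw [if_neg (by omega), if_neg (by omega)]
      have h2 := qadj (i - L₁) (by omega)
      have h3 : i - L₁ + 1 = i + 1 - L₁ := by omega
      rw [h3] at h2
      exact h2
  · intro i hi j hj hij
    simp only at hij
    by_cases h1 : i ≤ L₁ <;> by_cases h2 : j ≤ L₁
    · rw [if_pos h1, if_pos h2] at hij
      exact pinj i h1 j h2 hij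
    · rw [if_pos h1, if_neg h2] at hij
      exact absurd hij (hcross i (j - L₁) h1 (by omega) (by omega))
    · rw [if_neg h1, if_pos h2] at hij
      exact absurd hij.symm (hcross j (i - L₁) h2 (by omega) (by omega))
    · rw [if_neg h1, if_neg h2] at hij
      have h3 := qinj (i - L₁) (by omega) (j - L₁) (by omega) hij
      omega
  · intro i h0 hi
    simp only
    rcases Nat.lt_trichotomy i L₁ with h1 | h1 | h1
    · rw [if_pos h1.le]
      have h2 := pint i h0 h1
      exact ⟨h2.1, fun h3 => h2.2 (Finset.mem_insert_of_mem h3)⟩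
    · rw [if_pos h1.le, h1, pL]
      exact ⟨hs, hsW⟩
    · rw [if_neg (by omega)]
      have h2 := qint (i - L₁) (by omega) (by omega)
      exact ⟨h2.1, fun h3 => h2.2 (Finset.mem_union_left _ h3)⟩

end Pool.Agent.Helper60.RS
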