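import Mathlib
import Pool.Agent.Helper60.RS.Path

/-!
# LINK: paths of length 4, 5, 6 between points of one star
-/

open Finset

namespace Pool.Agent.Helper60.RS

set_option linter.unusedSectionVars false

variable {α : Type*} [Fintype α] [DecidableEq α] {ι : Type*} [Fintype ι] [DecidableEq ι]

/-- The centres robustly linked to `z`. -/
def lk (P : ι → Finset α) (m : ℕ) (z : ι) : Finset ι :=
  univ.filter (fun v => v ≠ z ∧ m ≤ (P v ∩ P z).card)

/-- The level of `z`: the points of `P z` and the centres linked to `z`. -/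
def lvl (u : ι → α) (P : ι → Finset α) (m : ℕ) (z : ι) : Finset α := P z ∪ (lk P m z).image u

variable {F : SimpleGraph α} {u : ι → α} {P : ι → Finset α} {m q k M : ℕ}

private theorem lk_sub {z : ι} : P z ⊆ lvl u P m z := Finset.subset_union_left

private theorem cen_mem_lvl {z v : ι} {x y : α} (hv : v ∈ cen P m z x y) : u v ∈ lvl u P m z := by
  unfold cen at hv
  rw [Finset.mem_filter] at hv
  refine Finset.mem_union_right _ (Finset.mem_image_of_mem u ?_)
  unfold lk
  rw [Finset.mem_filter]
  exact ⟨Finset.mem_univ _, hv.2.1, hv.2.2.2.2⟩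

private theorem cen_symm {z : ι} {x y : α} : cen P m z x y = cen P m z y x := by
  unfold cen
  refine Finset.filter_congr fun v _ => ?_
  tauto

private theorem le_of_not_bad {z : ι} {x y : α} (hy : y ∈ P z) (hne : y ≠ x) (h : y ∉ bad P m z x) :
    m ≤ (cen P m z x y).card := by
  by_contra hc
  apply h
  unfold bad
  rw [Finset.mem_filter]
  exact ⟨hy, hne, not_le.1 hc⟩

/-- A pair with at least `m` common linked centres is joined by a path of length 2 through a centre:
the centres `u v`, `v ∈ cen P m z x y`, are distinct, so one of them is not in `W`. -/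
theorem two_step (hC : Clean F u P m q k M) {z : ι} {x y : α} (hxy : x ≠ y)
    (hg : m ≤ (cen P m z x y).card) (W : Finset α) (hW : W.card < m) :
    Ear F (lvl u P m z) W 2 x y := by
  have h1 : ∃ v ∈ cen P m z x y, u v ∉ W := by
    by_contra hcon
    push Not at hcon
    have h2 : (cen P m z x y).image u ⊆ W := by
      intro a ha
      obtain ⟨v, hv, rfl⟩ := Finset.mem_image.1 ha
      exact hcon v hv
    have h3 := Finset.card_le_card h2
    rw [Finset.card_image_of_injective _ hC.inj] at h3
    omega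
  obtain ⟨v, hv, hvW⟩ := h1
  have hv' := hv
  unfold cen at hv'
  rw [Finset.mem_filter] at hv'
  have ha : F.Adj x (u v) := (hC.adj v x hv'.2.2.1).symm
  have hb : F.Adj (u v) y := hC.adj v y hv'.2.2.2.1
  refine ⟨fun i => if i = 0 then x else if i = 1 then u v else y, by simp, by simp, ?_, ?_, ?_⟩
  · intro i hi
    interval_cases i
    · simpa using ha
    · simpa using hb
  · intro i hi j hj h
    have h01 : x ≠ u v := ha.ne
    have h12 : u v ≠ y := hb.ne
    interval_cases i <;> interval_cases j <;> simp_all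
  · intro i h0 h2
    have : i = 1 := by omega
    subst this
    simpa using ⟨cen_mem_lvl hv, hvW⟩

private theorem eight_bad (hC : Clean F u P m q k M) (hq : 8 ≤ q) {z : ι} {x : α} (hx : x ∈ P z) :
    8 * (bad P m z x).card < (P z).card :=
  lt_of_le_of_lt (Nat.mul_le_mul_right _ hq) (hC.good z x hx)

/-- Every point of `P z` has a partner `y ≠ x` in `P z` with at least `m` common linked centres. -/
theorem exists_partner (hC : Clean F u P m q k M) (hq : 8 ≤ q) (hM : 2 ≤ M) {z : ι} {x : α}
    (hx : x ∈ P z) : ∃ y ∈ P z, y ≠ x ∧ m ≤ (cen P m z x y).card := by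
  have h1 := eight_bad hC hq hx
  have h2 := hC.big z ⟨x, hx⟩
  have h3 : (insert x (bad P m z x)).card < (P z).card := by
    have := Finset.card_insert_le x (bad P m z x)
    omega
  obtain ⟨y, hy, hy2⟩ := Finset.exists_mem_notMem_of_card_lt_card h3
  rw [Finset.mem_insert, not_or] at hy2
  exact ⟨y, hy, hy2.1, le_of_not_bad hy hy2.1 hy2.2⟩

/-- the good middle points -/
private def mid (P : ι → Finset α) (m : ℕ) (z : ι) (x y : α) (W : Finset α) : Finset α :=
  P z \ (insert x (insert y (W ∪ (bad P m z x ∪ bad P m z y))))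

private theorem mem_mid {z : ι} {x y s : α} {W : Finset α} (hs : s ∈ mid P m z x y W) :
    s ∈ P z ∧ s ≠ x ∧ s ≠ y ∧ s ∉ W ∧ m ≤ (cen P m z x s).card ∧ m ≤ (cen P m z s y).card := by
  unfold mid at hs
  rw [Finset.mem_sdiff] at hs
  simp only [Finset.mem_insert, Finset.mem_union, not_or] at hs
  obtain ⟨h1, h2, h3, h4, h5, h6⟩ := hs
  refine ⟨h1, h2, h3, h4, le_of_not_bad h1 h2 h5, ?_⟩
  rw [cen_symm]
  exact le_of_not_bad h1 h3 h6

private theorem card_mid (hC : Clean F u P m q k M) (hq : 8 ≤ q) (hM : 20 * m ≤ M) {z : ι}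
    {x y : α} (hx : x ∈ P z) (hy : y ∈ P z) (W : Finset α) (hW : W.card + 10 ≤ m) :
    (P z).card ≤ 4 * (mid P m z x y W).card ∧ (mid P m z x y W).Nonempty := by
  have h1 := eight_bad hC hq hx
  have h2 := eight_bad hC hq hy
  have h3 := hC.big z ⟨x, hx⟩
  have h4 : (insert x (insert y (W ∪ (bad P m z x ∪ bad P m z y)))).card ≤
      W.card + (bad P m z x).card + (bad P m z y).card + 2 := by
    have e1 := Finset.card_insert_le x (insert y (W ∪ (bad P m z x ∪ bad P m z y)))
    have e2 := Finset.card_insert_le y (W ∪ (bad P m z x ∪ bad P m z y))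
    have e3 := Finset.card_union_le W (bad P m z x ∪ bad P m z y)
    have e4 := Finset.card_union_le (bad P m z x) (bad P m z y)
    omega
  have h5 := Finset.le_card_sdiff (insert x (insert y (W ∪ (bad P m z x ∪ bad P m z y)))) (P z)
  have h6 : (mid P m z x y W).card = (P z \ (insert x (insert y (W ∪ (bad P m z x ∪ bad P m z y))))).card := rfl
  refine ⟨by omega, ?_⟩
  rw [← Finset.card_pos]
  omega

private theorem link4 (hC : Clean F u P m q k M) (hq : 8 ≤ q) (hM : 20 * m ≤ M) {z : ι}
    {x y : α} (hx : x ∈ P z) (hy : y ∈ P z) (hxy : x ≠ y) (W : Finset α) (hW : W.card + 10 ≤ m) :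
    Ear F (lvl u P m z) W 4 x y := by
  obtain ⟨s, hs⟩ := (card_mid hC hq hM hx hy W hW).2
  obtain ⟨h1, h2, h3, h4, h5, h6⟩ := mem_mid hs
  have h7 := Finset.card_insert_le y W
  refine Ear.trans (L₁ := 2) (L₂ := 2) (lk_sub h1) h4 h2 h3 hxy (two_step hC h2.symm h5 _ (by omega)) ?_
    (by norm_num) (by norm_num)
  intro W' hW'
  exact two_step hC h3 h6 W' (by omega)

/-- Paths of length 4, 5, 6. Length 4: choose `s ∈ P z` off `W ∪ {x, y}` and not bad for `x` nor
for `y` (fewer than `|P z| / 4` points are bad for one of them; `cen` is symmetric in `x, y`), and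
use `two_step` twice with `Ear.trans`. Length 5: the set of all such `s` has at least `|P z| / 4`
points, so by `core` (`1 ≤ k`) it contains two adjacent points `s, s'`; use `x -2- s -1- s' -2- y`.
Length 6: choose `s` as before, `x -2- s` and the case of length 4 for `s, y`. -/
theorem link (hC : Clean F u P m q k M) (hq : 8 ≤ q) (hk : 1 ≤ k) (hM : 20 * m ≤ M) {z : ι}
    {x y : α} (hx : x ∈ P z) (hy : y ∈ P z) (hxy : x ≠ y) (W : Finset α) (hW : W.card + 20 ≤ m)
    (j : ℕ) (hj : j ≤ 2) : Ear F (lvl u P m z) W (4 + j) x y := by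
  obtain ⟨hc, hne⟩ := card_mid hC hq hM hx hy W (by omega)
  have h7 := Finset.card_insert_le y W
  interval_cases j
  · exact link4 hC hq hM hx hy hxy W (by omega)
  · obtain ⟨X, hX, ⟨s, hs⟩, hnb⟩ := hC.core z ⟨x, hx⟩ (mid P m z x y W) Finset.sdiff_subset hc
    obtain ⟨s', hs'⟩ : (nb F X s).Nonempty := by
      rw [← Finset.card_pos]
      have := hnb s hs
      omega
    rw [mem_nb] at hs'
    obtain ⟨h1, h2, h3, h4, h5, h6⟩ := mem_mid (hX hs)
    obtain ⟨g1, g2, g3, g4, g5, g6⟩ := mem_mid (hX hs'.1)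
    have hss : s ≠ s' := hs'.2.ne
    have h8 := Finset.card_insert_le s' (insert y W)
    have hsW : s ∉ insert y W := by
      rw [Finset.mem_insert, not_or]
      exact ⟨h3, h4⟩
    have e3 : Ear F (lvl u P m z) (insert y W) (2 + 1) x s' :=
      Ear.trans (L₁ := 2) (L₂ := 1) (lk_sub h1) hsW h2 hss g2.symm (two_step hC h2.symm h5 _ (by omega))
        (fun W' _ => Ear.edge hs'.2) (by norm_num) (by norm_num)
    refine Ear.trans (L₁ := 2 + 1) (L₂ := 2) (lk_sub g1) g4 g2 g3 hxy e3 ?_ (by norm_num) (by norm_num)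
    intro W' hW'
    exact two_step hC g3 g6 W' (by omega)
  · obtain ⟨s, hs⟩ := hne
    obtain ⟨h1, h2, h3, h4, h5, h6⟩ := mem_mid hs
    refine Ear.trans (L₁ := 2) (L₂ := 4) (lk_sub h1) h4 h2 h3 hxy (two_step hC h2.symm h5 _ (by omega)) ?_
      (by norm_num) (by norm_num)
    intro W' hW'
    exact link4 hC hq hM h1 hy h3 W' (by omega)

end Pool.Agent.Helper60.RS
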