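import Mathlib
import Pool.Agent.Helper60.RS.Defs

/-!
# TREE: forests embed into sets of large minimum degree; acyclic graphs are forests in our sense
-/

open Finset

namespace Pool.Agent.Helper60.RS

/-- Greedy embedding: induction on `Fo G T`; the new vertex has at most one old neighbour `p`, and
`nb F X (φ p)` has at least `k ≥ |T|` elements; if it has no old neighbour, use `|X| > k`. -/
theorem embed_forest {V α : Type*} [Fintype V] [DecidableEq V] [Fintype α] [DecidableEq α]
    (G : SimpleGraph V) (F : SimpleGraph α) (T : Finset V) (hT : Fo G T) (X : Finset α)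
    (hX : X.Nonempty) (k : ℕ) (hk : T.card ≤ k) (hdeg : ∀ x ∈ X, k ≤ (nb F X x).card) :
    ∃ φ : V → α, (∀ v ∈ T, φ v ∈ X) ∧ Set.InjOn φ (T : Set V) ∧
      ∀ a ∈ T, ∀ b ∈ T, G.Adj a b → F.Adj (φ a) (φ b) := by
  obtain ⟨x₀, hx₀⟩ := hX
  induction hT with
  | empty => exact ⟨fun _ => x₀, by simp, by simp, by simp⟩
  | leaf S v hS hv hle ih =>
    rw [Finset.card_insert_of_notMem hv] at hk
    obtain ⟨φ, hφX, hφinj, hφadj⟩ := ih (by omega)
    have himg : (S.image φ).card ≤ S.card := Finset.card_image_le
    obtain ⟨y, hyX, hyS, hyadj⟩ : ∃ y, y ∈ X ∧ y ∉ S.image φ ∧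
        ∀ b ∈ S, G.Adj v b → F.Adj (φ b) y := by
      rcases Finset.eq_empty_or_nonempty (nb G S v) with h0 | ⟨p, hp⟩
      · have hcard : (S.image φ).card < X.card := by
          have h1 := hdeg x₀ hx₀
          have h2 : (nb F X x₀).card ≤ X.card :=
            Finset.card_le_card (fun z hz => (mem_nb.mp hz).1)
          omega
        obtain ⟨y, hy1, hy2⟩ := Finset.exists_mem_notMem_of_card_lt_card hcard
        refine ⟨y, hy1, hy2, fun b hb hadj => ?_⟩
        have : b ∈ nb G S v := mem_nb.mpr ⟨hb, hadj⟩
        rw [h0] at this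
        exact absurd this (Finset.notMem_empty _)
      · have hpS := (mem_nb.mp hp).1
        have hcard : (S.image φ).card < (nb F X (φ p)).card := by
          have h1 := hdeg (φ p) (hφX p hpS)
          omega
        obtain ⟨y, hy1, hy2⟩ := Finset.exists_mem_notMem_of_card_lt_card hcard
        have hy3 := mem_nb.mp hy1
        refine ⟨y, hy3.1, hy2, fun b hb hadj => ?_⟩
        have hb' : b ∈ nb G S v := mem_nb.mpr ⟨hb, hadj⟩
        have : b = p := Finset.card_le_one.mp hle b hb' p hp
        rw [this]
        exact hy3.2
    have hne : ∀ a ∈ S, a ≠ v := fun a ha h => hv (h ▸ ha)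
    have hyne : ∀ a ∈ S, φ a ≠ y := fun a ha h =>
      hyS (Finset.mem_image.mpr ⟨a, ha, h⟩)
    refine ⟨Function.update φ v y, ?_, ?_, ?_⟩
    · intro a ha
      rcases Finset.mem_insert.mp ha with rfl | ha
      · simpa using hyX
      · rw [Function.update_of_ne (hne a ha)]
        exact hφX a ha
    · intro a ha b hb hab
      rcases Finset.mem_insert.mp (Finset.mem_coe.mp ha) with rfl | ha' <;>
        rcases Finset.mem_insert.mp (Finset.mem_coe.mp hb) with h | hb'
      · exact h.symm
      · rw [Function.update_self, Function.update_of_ne (hne b hb')] at hab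
        exact absurd hab.symm (hyne b hb')
      · rw [h, Function.update_self, Function.update_of_ne (hne a ha')] at hab
        exact absurd hab (hyne a ha')
      · rw [Function.update_of_ne (hne a ha'), Function.update_of_ne (hne b hb')] at hab
        exact hφinj (Finset.mem_coe.mpr ha') (Finset.mem_coe.mpr hb') hab
    · intro a ha b hb hab
      rcases Finset.mem_insert.mp ha with h | ha' <;>
        rcases Finset.mem_insert.mp hb with h' | hb'
      · rw [h, h'] at hab
        exact absurd hab (G.irrefl)
      · rw [h] at hab ⊢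
        rw [Function.update_self, Function.update_of_ne (hne b hb')]
        exact (hyadj b hb' hab).symm
      · rw [h'] at hab ⊢
        rw [Function.update_self, Function.update_of_ne (hne a ha')]
        exact hyadj a ha' hab.symm
      · rw [Function.update_of_ne (hne a ha'), Function.update_of_ne (hne b hb')]
        exact hφadj a ha' b hb' hab

/-- A nonempty finite acyclic graph has a vertex of degree at most one. -/
private theorem exists_small {V : Type*} [Fintype V] [DecidableEq V] (G : SimpleGraph V)
    (B : Finset V) (hne : B.Nonempty) (h : (G.induce (B : Set V)).IsAcyclic) :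
    ∃ v ∈ B, (nb G (B.erase v) v).card ≤ 1 := by
  classical
  obtain ⟨b, hb⟩ := hne
  have : Nonempty (B : Set V) := ⟨⟨b, hb⟩⟩
  obtain ⟨u, v, p, hp, hmax⟩ :=
    SimpleGraph.Walk.exists_isPath_forall_isPath_length_le_length (G.induce (B : Set V))
  refine ⟨u.1, u.2, ?_⟩
  rw [Finset.card_le_one]
  have key : ∀ w : V, w ∈ nb G (B.erase u.1) u.1 → w = (p.snd : (B : Set V)).1 := by
    intro w hw
    rw [mem_nb, Finset.mem_erase] at hw
    obtain ⟨⟨_, hwB⟩, hadj⟩ := hw
    have hadj' : (G.induce (B : Set V)).Adj u ⟨w, hwB⟩ := hadj
    have hsupp : (⟨w, hwB⟩ : (B : Set V)) ∈ p.support := by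
      by_contra hns
      have h1 := hmax _ _ (p.cons hadj'.symm) (hp.cons hns)
      rw [SimpleGraph.Walk.length_cons] at h1
      omega
    have := h.eq_snd_of_adj_start hp hadj' hsupp
    rw [← this]
  intro a ha a' ha'
  rw [key a ha, key a' ha']

/-- Every subset of a set inducing an acyclic graph is a forest in the sense of `Fo`: a finite
nonempty acyclic graph has a vertex of degree at most 1. -/
theorem fo_of_acyclic {V : Type*} [Fintype V] [DecidableEq V] (G : SimpleGraph V) (A : Set V)
    (h : (G.induce A).IsAcyclic) (B : Finset V) (hB : (B : Set V) ⊆ A) : Fo G B := by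
  classical
  induction hn : B.card generalizing B with
  | zero =>
    rw [Finset.card_eq_zero] at hn
    rw [hn]
    exact Fo.empty
  | succ n ih =>
    have hne : B.Nonempty := by
      rw [← Finset.card_pos]
      omega
    have hac : (G.induce (B : Set V)).IsAcyclic := by
      refine h.comap (f := (SimpleGraph.induceHomOfLE G hB).toHom) ?_
      exact (SimpleGraph.induceHomOfLE G hB).injective
    obtain ⟨v, hv, hle⟩ := exists_small G B hne hac
    have h1 : Fo G (B.erase v) := by
      refine ih (B.erase v) ?_ ?_
      · intro x hx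
        exact hB (Finset.mem_coe.mpr (Finset.mem_of_mem_erase (Finset.mem_coe.mp hx)))
      · rw [Finset.card_erase_of_mem hv]
        omega
    have h2 := Fo.leaf (B.erase v) v h1 (Finset.notMem_erase v B) hle
    rwa [Finset.insert_erase hv] at h2

end Pool.Agent.Helper60.RS
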