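import Mathlib
import Pool.Agent.Helper60.RS.Tree
import Pool.Agent.Helper60.RS.Link

/-!
# EMBA: embedding trees linked by subdivided edges, and an apex, into one star

`embed_trees`: for `i = 0, 1, 2, ...` embed the label class `A i = {a ∈ A | c a = i}`, a forest,
into the set of all `y ∈ P z` which are not an image of an earlier vertex and not bad for any
image of an earlier vertex. This set has at least `|P z| - n - n |P z| / q ≥ |P z| / 4` elements,
so `core` gives a subset of minimum degree at least `k ≥ n` in it and `embed_forest` applies.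
If `c a ≠ c b`, say `c a < c b`, then `φ b` is not bad for `φ a`; `cen` is symmetric.
-/

open Finset

namespace Pool.Agent.Helper60.RS

variable {V : Type*} [Fintype V] [DecidableEq V] {α : Type*} [Fintype α] [DecidableEq α]
  {ι : Type*} [Fintype ι] [DecidableEq ι]

variable {F : SimpleGraph α} {u : ι → α} {P : ι → Finset α} {m q k M : ℕ}

omit [Fintype α] in
private theorem cen_comm (P : ι → Finset α) (m : ℕ) (z : ι) (x y : α) :
    cen P m z x y = cen P m z y x := by
  ext v
  simp only [cen, Finset.mem_filter]
  tauto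

theorem embed_trees (G : SimpleGraph V) (hC : Clean F u P m q k M) (n : ℕ)
    (hV : Fintype.card V ≤ n) (hq : 2 * n + 2 ≤ q) (hk : n + 1 ≤ k) (hM : 8 * n + 8 ≤ M) {z : ι}
    (hz : (P z).Nonempty) (A : Finset V) (c : V → ℕ) (hfo : ∀ B ⊆ A, Fo G B)
    (hc : ∀ a ∈ A, ∀ b ∈ A, G.Adj a b → c a = c b) :
    ∃ φ : V → α, (∀ v ∈ A, φ v ∈ P z) ∧ Set.InjOn φ (A : Set V) ∧
      (∀ a ∈ A, ∀ b ∈ A, G.Adj a b → F.Adj (φ a) (φ b)) ∧
      ∀ a ∈ A, ∀ b ∈ A, c a ≠ c b → m ≤ (cen P m z (φ a) (φ b)).card := by
  classical
  have key : ∀ L : ℕ, ∃ φ : V → α, (∀ v ∈ A.filter (fun a => c a < L), φ v ∈ P z) ∧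
      Set.InjOn φ (A.filter (fun a => c a < L) : Set V) ∧
      (∀ a ∈ A.filter (fun a => c a < L), ∀ b ∈ A.filter (fun a => c a < L), G.Adj a b →
        F.Adj (φ a) (φ b)) ∧
      ∀ a ∈ A.filter (fun a => c a < L), ∀ b ∈ A.filter (fun a => c a < L), c a ≠ c b →
        m ≤ (cen P m z (φ a) (φ b)).card := by
    intro L
    induction L with
    | zero =>
      obtain ⟨x, _⟩ := hz
      have h0 : A.filter (fun a => c a < 0) = ∅ := by simp
      rw [h0]
      exact ⟨fun _ => x, by simp, by simp, by simp, by simp⟩
    | succ L ih =>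
      obtain ⟨φ, h1, h2, h3, h4⟩ := ih
      set AL := A.filter (fun a => c a < L) with hAL
      set T := A.filter (fun a => c a = L) with hT
      have hALn : AL.card ≤ n := (Finset.card_le_univ AL).trans hV
      have hTn : T.card ≤ n := (Finset.card_le_univ T).trans hV
      set B := AL.biUnion (fun a => bad P m z (φ a)) with hB
      set Y := P z \ (AL.image φ ∪ B) with hY
      have hPM : M ≤ (P z).card := hC.big z hz
      have hB1 : q * B.card ≤ n * (P z).card := by
        calc q * B.card ≤ q * ∑ a ∈ AL, (bad P m z (φ a)).card :=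
              Nat.mul_le_mul_left _ Finset.card_biUnion_le
          _ = ∑ a ∈ AL, q * (bad P m z (φ a)).card := by rw [Finset.mul_sum]
          _ ≤ ∑ a ∈ AL, (P z).card :=
              Finset.sum_le_sum fun a ha => (hC.good z (φ a) (h1 a ha)).le
          _ = AL.card * (P z).card := by rw [Finset.sum_const, smul_eq_mul]
          _ ≤ n * (P z).card := Nat.mul_le_mul_right _ hALn
      have hB2 : 2 * B.card ≤ (P z).card := by
        have e1 : (n + 1) * (2 * B.card) ≤ (n + 1) * (P z).card := by
          calc (n + 1) * (2 * B.card) = (2 * n + 2) * B.card := by ring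
            _ ≤ q * B.card := Nat.mul_le_mul_right _ hq
            _ ≤ n * (P z).card := hB1
            _ ≤ (n + 1) * (P z).card := Nat.mul_le_mul_right _ (Nat.le_succ n)
        exact Nat.le_of_mul_le_mul_left e1 (Nat.succ_pos n)
      have hYc : (P z).card ≤ 4 * Y.card := by
        have e1 : (P z).card - (AL.image φ ∪ B).card ≤ Y.card := Finset.le_card_sdiff _ _
        have e2 : (AL.image φ ∪ B).card ≤ n + B.card :=
          (Finset.card_union_le _ _).trans
            (Nat.add_le_add_right (Finset.card_image_le.trans hALn) _)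
        omega
      obtain ⟨X, hXY, hXne, hXdeg⟩ := hC.core z hz Y Finset.sdiff_subset hYc
      obtain ⟨ψ, g1, g2, g3⟩ := embed_forest G F T (hfo T (Finset.filter_subset _ _)) X hXne k
        (by omega) hXdeg
      have hψY : ∀ v ∈ T, ψ v ∈ P z ∧ (∀ a ∈ AL, φ a ≠ ψ v ∧ m ≤ (cen P m z (φ a) (ψ v)).card) := by
        intro v hv
        have e1 := hXY (g1 v hv)
        rw [hY, Finset.mem_sdiff, Finset.mem_union, not_or] at e1
        refine ⟨e1.1, fun a ha => ?_⟩
        have e2 : φ a ≠ ψ v := fun h => e1.2.1 (Finset.mem_image.2 ⟨a, ha, h⟩)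
        refine ⟨e2, ?_⟩
        by_contra hcon
        rw [not_le] at hcon
        apply e1.2.2
        rw [hB, Finset.mem_biUnion]
        exact ⟨a, ha, Finset.mem_filter.2 ⟨e1.1, fun h => e2 h.symm, hcon⟩⟩
      have hmem : ∀ v ∈ A.filter (fun a => c a < L + 1), (v ∈ T ∧ c v = L) ∨ (v ∉ T ∧ v ∈ AL) := by
        intro v hv
        rw [Finset.mem_filter] at hv
        rcases Nat.lt_or_ge (c v) L with h | h
        · exact Or.inr ⟨fun h' => by rw [hT, Finset.mem_filter] at h'; omega,
            Finset.mem_filter.2 ⟨hv.1, h⟩⟩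
        · have h5 : c v = L := by omega
          exact Or.inl ⟨Finset.mem_filter.2 ⟨hv.1, h5⟩, h5⟩
      refine ⟨fun v => if v ∈ T then ψ v else φ v, ?_, ?_, ?_, ?_⟩
      · intro v hv
        rcases hmem v hv with h | h
        · simp only [if_pos h.1]
          exact (hψY v h.1).1
        · simp only [if_neg h.1]
          exact h1 v h.2
      · intro a ha b hb hab
        rw [Finset.mem_coe] at ha hb
        rcases hmem a ha with h | h <;> rcases hmem b hb with h' | h'
        · simp only [if_pos h.1, if_pos h'.1] at hab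
          exact g2 (Finset.mem_coe.2 h.1) (Finset.mem_coe.2 h'.1) hab
        · simp only [if_pos h.1, if_neg h'.1] at hab
          exact absurd hab.symm ((hψY a h.1).2 b h'.2).1
        · simp only [if_neg h.1, if_pos h'.1] at hab
          exact absurd hab ((hψY b h'.1).2 a h.2).1
        · simp only [if_neg h.1, if_neg h'.1] at hab
          exact h2 (Finset.mem_coe.2 h.2) (Finset.mem_coe.2 h'.2) hab
      · intro a ha b hb hab
        have hcab : c a = c b :=
          hc a (Finset.mem_filter.1 ha).1 b (Finset.mem_filter.1 hb).1 hab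
        rcases hmem a ha with h | h <;> rcases hmem b hb with h' | h'
        · simp only [if_pos h.1, if_pos h'.1]
          exact g3 a h.1 b h'.1 hab
        · exfalso
          have := (Finset.mem_filter.1 h'.2).2
          omega
        · exfalso
          have := (Finset.mem_filter.1 h.2).2
          omega
        · simp only [if_neg h.1, if_neg h'.1]
          exact h3 a h.2 b h'.2 hab
      · intro a ha b hb hab
        rcases hmem a ha with h | h <;> rcases hmem b hb with h' | h'
        · exfalso
          omega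
        · simp only [if_pos h.1, if_neg h'.1]
          rw [cen_comm]
          exact ((hψY a h.1).2 b h'.2).2
        · simp only [if_neg h.1, if_pos h'.1]
          exact ((hψY b h'.1).2 a h.2).2
        · simp only [if_neg h.1, if_neg h'.1]
          exact h4 a h.2 b h'.2 hab
  obtain ⟨φ, h1, h2, h3, h4⟩ := key (A.sup c + 1)
  have hA : A.filter (fun a => c a < A.sup c + 1) = A := by
    rw [Finset.filter_eq_self]
    intro a ha
    exact Nat.lt_succ_of_le (Finset.le_sup (f := c) ha)
  rw [hA] at h1 h2 h3 h4
  exact ⟨φ, h1, h2, h3, h4⟩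

/-- Extend the map of `embed_trees`: the apex (if any) goes to `u z`, which is adjacent to all of
`P z`; the remaining vertices `r` are placed one at a time, at a centre `u v` with
`v ∈ cen P m z (φ a) (φ b)` if `a ≠ b` are the neighbours of `r`, with
`v ∈ cen P m z (φ a) y` for a partner `y` of `φ a` (`exists_partner`) if `a` is the only neighbour,
and at any point of `P z` if there is none, always avoiding the at most `n` vertices used so
far. -/
theorem embed_base (G : SimpleGraph V) (hC : Clean F u P m q k M) (n : ℕ)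
    (hV : Fintype.card V ≤ n) (hq : 2 * n + 8 ≤ q) (hk : n + 1 ≤ k) (hm : n + 1 ≤ m)
    (hM : 8 * n + 8 ≤ M) {z : ι} (hz : (P z).Nonempty) (W A : Finset V) (c : V → ℕ)
    (hW : W.card ≤ 1) (hWA : Disjoint W A) (hWadj : ∀ w ∈ W, ∀ v, G.Adj w v → v ∈ A)
    (hfo : ∀ B ⊆ A, Fo G B) (hc : ∀ a ∈ A, ∀ b ∈ A, G.Adj a b → c a = c b)
    (hR : ∀ r, r ∉ A → r ∉ W → ∀ v, G.Adj r v → v ∈ A)
    (hR2 : ∀ r, r ∉ A → r ∉ W → (nb G univ r).card ≤ 2)
    (hR3 : ∀ r, r ∉ A → r ∉ W → ∀ a b, G.Adj r a → G.Adj r b → a ≠ b → c a ≠ c b) :
    G.IsContained F := by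
  classical
  obtain ⟨φ, h1, h2, h3, h4⟩ := embed_trees G hC n hV (by omega) hk hM hz A c hfo hc
  -- candidates for the image of a remaining vertex
  have hcand : ∀ r, r ∉ A → r ∉ W → ∃ C : Finset α, n < C.card ∧
      ∀ y ∈ C, ∀ a, G.Adj r a → F.Adj (φ a) y := by
    intro r hrA hrW
    have hcen : ∀ x y, m ≤ (cen P m z x y).card → n < ((cen P m z x y).image u).card := by
      intro x y h
      rw [Finset.card_image_of_injective _ hC.inj]
      omega
    rcases (nb G univ r).eq_empty_or_nonempty with h0 | ⟨a, ha⟩
    · refine ⟨P z, ?_, ?_⟩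
      · have := hC.big z hz
        omega
      · intro y _ a ha
        exfalso
        have : a ∈ nb G univ r := mem_nb.2 ⟨Finset.mem_univ a, ha⟩
        rw [h0] at this
        exact absurd this (Finset.notMem_empty a)
    · have hra : G.Adj r a := (mem_nb.1 ha).2
      have haA : a ∈ A := hR r hrA hrW a hra
      by_cases h5 : ∃ b, G.Adj r b ∧ b ≠ a
      · obtain ⟨b, hrb, hba⟩ := h5
        have hbA : b ∈ A := hR r hrA hrW b hrb
        have h6 := h4 a haA b hbA (hR3 r hrA hrW a b hra hrb hba.symm)
        refine ⟨(cen P m z (φ a) (φ b)).image u, hcen _ _ h6, ?_⟩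
        intro y hy d hd
        obtain ⟨v, hv, rfl⟩ := Finset.mem_image.1 hy
        have hv' := (Finset.mem_filter.1 hv).2
        have hdab : d = a ∨ d = b := by
          by_contra hcon
          rw [not_or] at hcon
          have h7 : ({a, b, d} : Finset V) ⊆ nb G univ r := by
            intro t ht
            rw [Finset.mem_insert, Finset.mem_insert, Finset.mem_singleton] at ht
            rcases ht with rfl | rfl | rfl
            · exact ha
            · exact mem_nb.2 ⟨Finset.mem_univ _, hrb⟩
            · exact mem_nb.2 ⟨Finset.mem_univ _, hd⟩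
          have h8 : ({a, b, d} : Finset V).card = 3 := by
            rw [Finset.card_eq_three]
            exact ⟨a, b, d, hba.symm, fun h => hcon.1 h.symm, fun h => hcon.2 h.symm, rfl⟩
          have h9 := Finset.card_le_card h7
          have h10 := hR2 r hrA hrW
          omega
        rcases hdab with rfl | rfl
        · exact (hC.adj v _ hv'.2.1).symm
        · exact (hC.adj v _ hv'.2.2.1).symm
      · push Not at h5
        obtain ⟨y', _, _, h6⟩ := exists_partner hC (by omega) (by omega) (h1 a haA)
        refine ⟨(cen P m z (φ a) y').image u, hcen _ _ h6, ?_⟩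
        intro y hy d hd
        obtain ⟨v, hv, rfl⟩ := Finset.mem_image.1 hy
        have hv' := (Finset.mem_filter.1 hv).2
        rw [h5 d hd]
        exact (hC.adj v _ hv'.2.1).symm
  -- greedy extension
  have hext : ∀ S : Finset V, (∀ r ∈ S, r ∉ A ∧ r ∉ W) → ∃ ψ : V → α, (∀ a ∈ A, ψ a = φ a) ∧
      Set.InjOn ψ ((A ∪ W ∪ S : Finset V) : Set V) ∧
      ∀ x ∈ A ∪ W ∪ S, ∀ y ∈ A ∪ W ∪ S, G.Adj x y → F.Adj (ψ x) (ψ y) := by
    intro S
    induction S using Finset.induction_on with
    | empty =>
      intro _
      rw [Finset.union_empty]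
      have hmem : ∀ x ∈ A ∪ W, (x ∈ W ∧ x ∉ A) ∨ (x ∉ W ∧ x ∈ A) := by
        intro x hx
        rcases Finset.mem_union.1 hx with h | h
        · exact Or.inr ⟨fun h' => Finset.disjoint_left.1 hWA h' h, h⟩
        · exact Or.inl ⟨h, Finset.disjoint_left.1 hWA h⟩
      have huz : ∀ a ∈ A, F.Adj (u z) (φ a) := fun a ha => hC.adj z _ (h1 a ha)
      refine ⟨fun v => if v ∈ W then u z else φ v, ?_, ?_, ?_⟩
      · intro a ha
        simp only [if_neg (fun h' => Finset.disjoint_left.1 hWA h' ha)]
      · intro a ha b hb hab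
        rw [Finset.mem_coe] at ha hb
        rcases hmem a ha with h | h <;> rcases hmem b hb with h' | h'
        · exact Finset.card_le_one.1 hW a h.1 b h'.1
        · simp only [if_pos h.1, if_neg h'.1] at hab
          exact absurd hab (huz b h'.2).ne
        · simp only [if_neg h.1, if_pos h'.1] at hab
          exact absurd hab.symm (huz a h.2).ne
        · simp only [if_neg h.1, if_neg h'.1] at hab
          exact h2 (Finset.mem_coe.2 h.2) (Finset.mem_coe.2 h'.2) hab
      · intro a ha b hb hab
        rcases hmem a ha with h | h <;> rcases hmem b hb with h' | h'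
        · exact absurd (hWadj a h.1 b hab) h'.2
        · simp only [if_pos h.1, if_neg h'.1]
          exact huz b h'.2
        · simp only [if_neg h.1, if_pos h'.1]
          exact (huz a h.2).symm
        · simp only [if_neg h.1, if_neg h'.1]
          exact h3 a h.2 b h'.2 hab
    | insert r S hrS ih =>
      intro hS
      obtain ⟨ψ, g1, g2, g3⟩ := ih fun x hx => hS x (Finset.mem_insert_of_mem hx)
      obtain ⟨hrA, hrW⟩ := hS r (Finset.mem_insert_self r S)
      obtain ⟨C, hCn, hCa⟩ := hcand r hrA hrW
      obtain ⟨y, hyC, hy⟩ : ∃ y ∈ C, y ∉ (A ∪ W ∪ S).image ψ := by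
        by_contra hcon
        push Not at hcon
        have h5 : C ⊆ (A ∪ W ∪ S).image ψ := hcon
        have h6 := Finset.card_le_card h5
        have h7 : ((A ∪ W ∪ S).image ψ).card ≤ n :=
          Finset.card_image_le.trans ((Finset.card_le_univ _).trans hV)
        omega
      have hrU : r ∉ A ∪ W ∪ S := by
        simp only [Finset.mem_union, not_or]
        exact ⟨⟨hrA, hrW⟩, hrS⟩
      have hUeq : A ∪ W ∪ insert r S = insert r (A ∪ W ∪ S) := Finset.union_insert _ _ _
      rw [hUeq]
      have hne : ∀ x ∈ A ∪ W ∪ S, x ≠ r := fun x hx h => hrU (h ▸ hx)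
      refine ⟨Function.update ψ r y, ?_, ?_, ?_⟩
      · intro a ha
        rw [Function.update_of_ne (hne a (by simp [ha])), g1 a ha]
      · intro a ha b hb hab
        rw [Finset.mem_coe, Finset.mem_insert] at ha hb
        rcases ha with rfl | ha <;> rcases hb with rfl | hb
        · rfl
        · rw [Function.update_self, Function.update_of_ne (hne b hb)] at hab
          exact absurd (Finset.mem_image.2 ⟨b, hb, hab.symm⟩) hy
        · rw [Function.update_self, Function.update_of_ne (hne a ha)] at hab
          exact absurd (Finset.mem_image.2 ⟨a, ha, hab⟩) hy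
        · rw [Function.update_of_ne (hne a ha), Function.update_of_ne (hne b hb)] at hab
          exact g2 (Finset.mem_coe.2 ha) (Finset.mem_coe.2 hb) hab
      · intro a ha b hb hab
        rw [Finset.mem_insert] at ha hb
        rcases ha with rfl | ha <;> rcases hb with rfl | hb
        · exact absurd hab (G.loopless.irrefl _)
        · rw [Function.update_self, Function.update_of_ne (hne b hb),
            g1 b (hR _ hrA hrW b hab)]
          exact (hCa y hyC b hab).symm
        · rw [Function.update_self, Function.update_of_ne (hne a ha),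
            g1 a (hR _ hrA hrW a hab.symm)]
          exact hCa y hyC a hab.symm
        · rw [Function.update_of_ne (hne a ha), Function.update_of_ne (hne b hb)]
          exact g3 a ha b hb hab
  obtain ⟨ψ, _, g2, g3⟩ := hext (univ \ (A ∪ W)) (by
    intro r hr
    rw [Finset.mem_sdiff, Finset.mem_union, not_or] at hr
    exact hr.2)
  have hU : A ∪ W ∪ (univ \ (A ∪ W)) = univ :=
    Finset.union_sdiff_of_subset (Finset.subset_univ _)
  rw [hU] at g2 g3
  have hinj : Function.Injective ψ := fun x y e => g2 (by simp) (by simp) e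
  refine ⟨⟨⟨ψ, ?_⟩, hinj⟩⟩
  intro x y hxy
  exact g3 x (Finset.mem_univ _) y (Finset.mem_univ _) hxy

end Pool.Agent.Helper60.RS
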