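import Mathlib
import Pool.Agent.Helper60.RS.Tree

/-!
# EMBB: embedding a built graph into a robust set

Induction on `Bd G S`; the avoided set `W` is always the current image (at most `|V| ≤ n`
vertices). Leaf: if the new vertex has an old neighbour use `leaf`, otherwise `cone` (its `w`).
Ear: use `ear` for the images of `p 0`, `p 14`. Cone: use `cone` and `embed_forest`.
-/

open Finset

namespace Pool.Agent.Helper60.RS

/-- gluing two partial embeddings -/
private theorem glue {V α : Type*} [DecidableEq V] (G : SimpleGraph V) (F : SimpleGraph α) (Y : Finset α)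
    (S T : Finset V) (hd : Disjoint T S) (φ ψ : V → α) (h1 : ∀ v ∈ S, φ v ∈ Y) (h2 : Set.InjOn φ (S : Set V))
    (h3 : ∀ a ∈ S, ∀ b ∈ S, G.Adj a b → F.Adj (φ a) (φ b)) (g1 : ∀ v ∈ T, ψ v ∈ Y)
    (g2 : Set.InjOn ψ (T : Set V)) (g3 : ∀ a ∈ T, ∀ b ∈ T, G.Adj a b → F.Adj (ψ a) (ψ b))
    (hne : ∀ a ∈ T, ∀ b ∈ S, ψ a ≠ φ b) (hcr : ∀ a ∈ T, ∀ b ∈ S, G.Adj a b → F.Adj (ψ a) (φ b)) :
    ∃ χ : V → α, (∀ v ∈ T ∪ S, χ v ∈ Y) ∧ Set.InjOn χ ((T ∪ S : Finset V) : Set V) ∧
      ∀ a ∈ T ∪ S, ∀ b ∈ T ∪ S, G.Adj a b → F.Adj (χ a) (χ b) := by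
  have hT : ∀ v ∈ T, (if v ∈ T then ψ v else φ v) = ψ v := fun v hv => if_pos hv
  have hS : ∀ v ∈ S, (if v ∈ T then ψ v else φ v) = φ v :=
    fun v hv => if_neg (fun h => Finset.disjoint_left.1 hd h hv)
  refine ⟨fun v => if v ∈ T then ψ v else φ v, ?_, ?_, ?_⟩
  · intro v hv
    rcases Finset.mem_union.1 hv with h | h
    · simp only [hT v h]; exact g1 v h
    · simp only [hS v h]; exact h1 v h
  · intro a ha b hb hab
    rw [Finset.mem_coe] at ha hb
    rcases Finset.mem_union.1 ha with h | h <;> rcases Finset.mem_union.1 hb with h' | h'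
    · simp only [hT a h, hT b h'] at hab
      exact g2 (Finset.mem_coe.2 h) (Finset.mem_coe.2 h') hab
    · simp only [hT a h, hS b h'] at hab
      exact absurd hab (hne a h b h')
    · simp only [hS a h, hT b h'] at hab
      exact absurd hab.symm (hne b h' a h)
    · simp only [hS a h, hS b h'] at hab
      exact h2 (Finset.mem_coe.2 h) (Finset.mem_coe.2 h') hab
  · intro a ha b hb hab
    rcases Finset.mem_union.1 ha with h | h <;> rcases Finset.mem_union.1 hb with h' | h'
    · simp only [hT a h, hT b h']; exact g3 a h b h' hab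
    · simp only [hT a h, hS b h']; exact hcr a h b h' hab
    · simp only [hS a h, hT b h']; exact (hcr b h' a h hab.symm).symm
    · simp only [hS a h, hS b h']; exact h3 a h b h' hab

theorem embed_build {V α : Type*} [Fintype V] [DecidableEq V] [Fintype α] [DecidableEq α]
    (G : SimpleGraph V) (F : SimpleGraph α) (n : ℕ) (hV : Fintype.card V ≤ n) (Y : Finset α)
    (hR : Robust F Y n) (S : Finset V) (hS : Bd G S) :
    ∃ φ : V → α, (∀ v ∈ S, φ v ∈ Y) ∧ Set.InjOn φ (S : Set V) ∧
      ∀ a ∈ S, ∀ b ∈ S, G.Adj a b → F.Adj (φ a) (φ b) := by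
  classical
  have hW : ∀ (S : Finset V) (φ : V → α), (S.image φ).card ≤ n := fun S φ =>
    Finset.card_image_le.trans ((Finset.card_le_univ S).trans hV)
  induction hS with
  | empty =>
    obtain ⟨w, -⟩ := hR.cone ∅ (by simp)
    exact ⟨fun _ => w, by simp, by simp, by simp⟩
  | leaf S v _ hvS hnb ih =>
    obtain ⟨φ, h1, h2, h3⟩ := ih
    obtain ⟨y, hyY, hyW, hadj⟩ : ∃ y ∈ Y, y ∉ S.image φ ∧ ∀ s ∈ S, G.Adj v s → F.Adj y (φ s) := by
      rcases (nb G S v).eq_empty_or_nonempty with he | ⟨p, hp⟩
      · obtain ⟨w, hw, hwW, -⟩ := hR.cone (S.image φ) (hW S φ)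
        refine ⟨w, hw, hwW, fun s hs hvs => ?_⟩
        have : s ∈ nb G S v := mem_nb.2 ⟨hs, hvs⟩
        rw [he] at this
        exact absurd this (Finset.notMem_empty s)
      · obtain ⟨y, hy, hyW, hya⟩ := hR.leaf (S.image φ) (hW S φ) (φ p) (h1 p (mem_nb.1 hp).1)
        refine ⟨y, hy, hyW, fun s hs hvs => ?_⟩
        have : s ∈ nb G S v := mem_nb.2 ⟨hs, hvs⟩
        have hsp : s = p := Finset.card_le_one.1 hnb s this p hp
        rw [hsp]
        exact hya.symm
    have hd : Disjoint ({v} : Finset V) S := Finset.disjoint_singleton_left.2 hvS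
    have key := glue G F Y S {v} hd φ (fun _ => y) h1 h2 h3 (fun _ _ => hyY)
      (by intro a ha b hb _; rw [Finset.coe_singleton, Set.mem_singleton_iff] at ha hb; rw [ha, hb])
      (by
        intro a ha b hb hab
        rw [Finset.mem_singleton] at ha hb
        rw [ha, hb] at hab
        exact absurd hab (G.loopless.irrefl v))
      (by
        intro a _ b hb he
        exact hyW (Finset.mem_image.2 ⟨b, hb, he.symm⟩))
      (by
        intro a ha b hb hab
        rw [Finset.mem_singleton] at ha
        rw [ha] at hab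
        exact hadj b hb hab)
    rw [← Finset.insert_eq] at key
    exact key
  | ear S p _ hinj hp0 hp14 hint hnbr ih =>
    obtain ⟨φ, h1, h2, h3⟩ := ih
    have hab : φ (p 0) ≠ φ (p 14) := by
      intro he
      have := h2 (Finset.mem_coe.2 hp0) (Finset.mem_coe.2 hp14) he
      have := hinj 0 (by norm_num) 14 le_rfl this
      omega
    obtain ⟨r, hr0, hr14, hradj, hrinj, hrY⟩ := hR.ear (S.image φ) (hW S φ) _ (h1 _ hp0) _ (h1 _ hp14) hab
    set T := (Finset.Ioo 0 14).image p with hT
    have hTmem : ∀ v, v ∈ T ↔ ∃ i, 0 < i ∧ i < 14 ∧ p i = v := by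
      intro v
      rw [hT, Finset.mem_image]
      constructor
      · rintro ⟨i, hi, hiv⟩
        rw [Finset.mem_Ioo] at hi
        exact ⟨i, hi.1, hi.2, hiv⟩
      · rintro ⟨i, hi1, hi2, hiv⟩
        exact ⟨i, Finset.mem_Ioo.2 ⟨hi1, hi2⟩, hiv⟩
    let ψ : V → α := fun v => if h : ∃ i, 0 < i ∧ i < 14 ∧ p i = v then r h.choose else r 0
    have hψ : ∀ i, 0 < i → i < 14 → ψ (p i) = r i := by
      intro i hi1 hi2
      have h : ∃ j, 0 < j ∧ j < 14 ∧ p j = p i := ⟨i, hi1, hi2, rfl⟩
      have e : ψ (p i) = r h.choose := dif_pos h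
      have hs := h.choose_spec
      rw [e, hinj h.choose (by omega) i (by omega) hs.2.2]
    have hd : Disjoint T S := by
      rw [Finset.disjoint_left]
      intro v hv hvS
      obtain ⟨i, hi1, hi2, rfl⟩ := (hTmem v).1 hv
      exact hint i hi1 hi2 hvS
    have key := glue G F Y S T hd φ ψ h1 h2 h3
      (by
        intro v hv
        obtain ⟨i, hi1, hi2, rfl⟩ := (hTmem v).1 hv
        rw [hψ i hi1 hi2]
        exact (hrY i hi1 hi2).1)
      (by
        intro a ha b hb he
        obtain ⟨i, hi1, hi2, rfl⟩ := (hTmem a).1 (Finset.mem_coe.1 ha)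
        obtain ⟨j, hj1, hj2, rfl⟩ := (hTmem b).1 (Finset.mem_coe.1 hb)
        rw [hψ i hi1 hi2, hψ j hj1 hj2] at he
        rw [hrinj i (by omega) j (by omega) he])
      (by
        intro a ha b hb hadj
        obtain ⟨i, hi1, hi2, rfl⟩ := (hTmem a).1 ha
        obtain ⟨j, hj1, hj2, rfl⟩ := (hTmem b).1 hb
        rw [hψ i hi1 hi2, hψ j hj1 hj2]
        rcases hnbr i hi1 hi2 (p j) (Or.inr ⟨j, hj1, hj2, rfl⟩) hadj with h | h
        · have h' := hinj j (by omega) (i - 1) (by omega) h
          have h4 := hradj j (by omega)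
          rw [show j + 1 = i by omega] at h4
          exact h4.symm
        · have h' := hinj j (by omega) (i + 1) (by omega) h
          have h4 := hradj i (by omega)
          rw [← h'] at h4
          exact h4)
      (by
        intro a ha b hb he
        obtain ⟨i, hi1, hi2, rfl⟩ := (hTmem a).1 ha
        rw [hψ i hi1 hi2] at he
        exact (hrY i hi1 hi2).2 (Finset.mem_image.2 ⟨b, hb, he.symm⟩))
      (by
        intro a ha b hb hadj
        obtain ⟨i, hi1, hi2, rfl⟩ := (hTmem a).1 ha
        rw [hψ i hi1 hi2]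
        rcases hnbr i hi1 hi2 b (Or.inl hb) hadj with h | h
        · have hi0 : i - 1 = 0 := by
            by_contra hne
            exact hint (i - 1) (by omega) (by omega) (h ▸ hb)
          rw [h, hi0]
          have h4 := hradj 0 (by omega)
          rw [hr0, show 0 + 1 = i by omega] at h4
          exact h4.symm
        · have hi0 : i + 1 = 14 := by
            by_contra hne
            exact hint (i + 1) (by omega) (by omega) (h ▸ hb)
          rw [h, hi0]
          have h4 := hradj i (by omega)
          rw [hi0, hr14] at h4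
          exact h4)
    rw [Finset.union_comm] at key
    exact key
  | cone S T w _ hFo hTS hwS hwT hno ih =>
    obtain ⟨φ, h1, h2, h3⟩ := ih
    obtain ⟨w', hw'Y, hw'W, X, hXY, hXne, hXadj, hXdeg⟩ := hR.cone (S.image φ) (hW S φ)
    obtain ⟨φ', f1, f2, f3⟩ := embed_forest G F T hFo X hXne n ((Finset.card_le_univ T).trans hV) hXdeg
    have hd : Disjoint (insert w T) S := by
      rw [Finset.disjoint_insert_left]
      exact ⟨hwS, hTS⟩
    have hw'X : w' ∉ X := fun h => F.loopless.irrefl w' (hXadj w' h).2
    have eT : ∀ v ∈ T, Function.update φ' w w' v = φ' v := fun v hv =>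
      Function.update_of_ne (by rintro rfl; exact hwT hv) _ _
    have ew : Function.update φ' w w' w = w' := Function.update_self _ _ _
    have key := glue G F Y S (insert w T) hd φ (Function.update φ' w w') h1 h2 h3
      (by
        intro v hv
        rcases Finset.mem_insert.1 hv with rfl | h
        · rw [ew]; exact hw'Y
        · rw [eT v h]; exact hXY (f1 v h))
      (by
        intro a ha b hb he
        rw [Finset.mem_coe] at ha hb
        rcases Finset.mem_insert.1 ha with rfl | h <;> rcases Finset.mem_insert.1 hb with h' | h'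
        · exact h'.symm
        · rw [ew, eT b h'] at he
          exact absurd (he ▸ f1 b h') hw'X
        · rw [h', ew, eT a h] at he
          exact absurd (he ▸ f1 a h) hw'X
        · rw [eT a h, eT b h'] at he
          exact f2 (Finset.mem_coe.2 h) (Finset.mem_coe.2 h') he)
      (by
        intro a ha b hb hadj
        rcases Finset.mem_insert.1 ha with rfl | h <;> rcases Finset.mem_insert.1 hb with h' | h'
        · rw [h'] at hadj
          exact absurd hadj (G.loopless.irrefl _)
        · rw [ew, eT b h']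
          exact (hXadj _ (f1 b h')).2
        · rw [h', ew, eT a h]
          exact (hXadj _ (f1 a h)).2.symm
        · rw [eT a h, eT b h']
          exact f3 a h b h' hadj)
      (by
        intro a ha b hb he
        rcases Finset.mem_insert.1 ha with rfl | h
        · rw [ew] at he
          exact hw'W (Finset.mem_image.2 ⟨b, hb, he.symm⟩)
        · rw [eT a h] at he
          exact (hXadj _ (f1 a h)).1 (Finset.mem_image.2 ⟨b, hb, he.symm⟩))
      (by
        intro a ha b hb hadj
        exact absurd hadj (hno a ha b hb))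
    rw [Finset.insert_union] at key
    exact key

end Pool.Agent.Helper60.RS
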