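import Mathlib
import Pool.Agent.Helper60.RS.Defs

/-!
# STAR: the star system of a host graph

Proof. Put `S_i = seq F i`, `t = (N + 1) / 2`, `u_i = um F i`, `X_i = nb F (seq F i) (um F i)`, so
that `|X_i| = dg F i`. If for some `i < t` there were an independent set `I ⊆ seq F i` with
`dg F i ≤ K * |I|`, then `embedH` (with `S = seq F i`, which has at least `N / 2` vertices, every
degree inside `S` is at most `dg F i` by `le_mx`) would embed `H` into the complement of `F`, since
`|W| ≤ 2 e(H)` and `pairs H univ = 2 e(H)` (see the start of the proof of the hand-in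
SpecialOrder, MP_bd4282_co, for these two facts). So `K |I| < dg F i` for all independent
`I ⊆ seq F i`, `i < t`. With Turan's bound `exists_indep` on `seq F i` this gives
`K N ≤ 4 (dg F i)^2` (as in the step `hdeg` of the lemma `key` of SpecialOrder.lean). Take
`D = dg F (t - 1)`, and use `dg_antitone`, `um_injOn`.
-/

open Finset

namespace Pool.Agent.Helper60.RS

theorem exists_stars (K : ℕ) (hK : 1 ≤ K) {W : Type} [Fintype W] (H : SimpleGraph W)
    (hiso : ∀ w, ∃ u, H.Adj w u) (N : ℕ) (hNpos : 0 < N)
    (hN : (4 + 4 * K) * H.edgeSet.ncard ≤ N) (F : SimpleGraph (Fin N))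
    (hH : ¬ H.IsContained Fᶜ) :
    ∃ (t : ℕ) (u : Fin t → Fin N) (X : Fin t → Finset (Fin N)) (D : ℕ),
      N ≤ 2 * t ∧ t ≤ N ∧ Stars F u X K D ∧ K * N ≤ 4 * D ^ 2 := by
  classical
  have : Nonempty (Fin N) := ⟨⟨0, hNpos⟩⟩
  have hcN : Fintype.card (Fin N) = N := Fintype.card_fin N
  -- the edges of `H`
  have hpm : pairs H Finset.univ = 2 * H.edgeSet.ncard := by
    have h1 : pairs H Finset.univ = ∑ v, H.degree v := by
      unfold pairs
      apply Finset.sum_congr rfl
      intro v _
      rw [← SimpleGraph.card_neighborFinset_eq_degree]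
      congr 1
      ext y
      simp [mem_nb]
    rw [h1, SimpleGraph.sum_degrees_eq_twice_card_edges, Set.ncard_eq_toFinset_card']
    rfl
  have hWm : Fintype.card W ≤ 2 * H.edgeSet.ncard := by
    rw [← hpm]
    unfold pairs
    calc Fintype.card W = ∑ x : W, 1 := by simp
      _ ≤ ∑ x : W, (nb H Finset.univ x).card := by
        apply Finset.sum_le_sum
        intro x _
        obtain ⟨u, hu⟩ := hiso x
        exact Finset.card_pos.mpr ⟨u, mem_nb.mpr ⟨Finset.mem_univ _, hu⟩⟩
  set m := H.edgeSet.ncard with hm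
  obtain ⟨t, ht⟩ : ∃ t, t = (N + 1) / 2 := ⟨_, rfl⟩
  have ht1 : 1 ≤ t := by omega
  have htN : t ≤ N := by omega
  have hcard : ∀ i < t, (seq F i).card = N - i := by
    intro i hi
    rw [card_seq F i (by rw [hcN]; omega), hcN]
  have hhalf : ∀ i < t, N ≤ 2 * (seq F i).card := by
    intro i hi
    rw [hcard i hi]
    omega
  -- independent sets are small
  have hind : ∀ i < t, ∀ I ⊆ seq F i, (∀ x ∈ I, ∀ y ∈ I, ¬ F.Adj x y) → K * I.card < dg F i := by
    intro i hi I hI hI2
    by_contra hcon
    rw [not_lt] at hcon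
    apply hH
    refine embedH F H (seq F i) I (K : ℝ) (by exact_mod_cast hK) hI hI2 ?_ ?_
    · intro u hu
      have h1 : (nb F (seq F i) u).card ≤ dg F i := le_mx F hu
      exact_mod_cast h1.trans hcon
    · rw [hpm]
      have h1 : Fintype.card W + K * (2 * m) ≤ (seq F i).card := by
        have h2 := hhalf i hi
        have h3 : (4 + 4 * K) * m = 2 * (2 * m + K * (2 * m)) := by ring
        omega
      exact_mod_cast h1
  refine ⟨t, fun i => um F i, fun i => nb F (seq F i) (um F i), dg F (t - 1), by omega, htN,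
    ⟨?_, ?_, ?_, ?_⟩, ?_⟩
  · intro i j hij
    have h1 := um_injOn F (t := t) (by rw [hcN]; exact htN)
    exact Fin.ext (h1 (by simp) (by simp) hij)
  · intro z x hx
    exact (mem_nb.mp hx).2
  · intro z
    exact dg_antitone F (by have := z.isLt; omega) (by rw [hcN]; omega)
  · intro z I hI hI2
    exact hind z z.isLt I (hI.trans (fun y hy => (mem_nb.mp hy).1)) hI2
  · have hi : t - 1 < t := by omega
    obtain ⟨I, hI, hI2, hI3⟩ := exists_indep F (seq F (t - 1))
    have h1 := hind (t - 1) hi I hI hI2
    have h2 := hhalf (t - 1) hi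
    have h3 : pairs F (seq F (t - 1)) ≤ (seq F (t - 1)).card * dg F (t - 1) := pairs_le F _
    set s := (seq F (t - 1)).card with hs
    set d := dg F (t - 1) with hd
    have hspos : 0 < s := by omega
    have h4 : s * s ≤ s * (I.card * (d + 1)) := by
      calc s * s = s ^ 2 := by ring
        _ ≤ I.card * (pairs F (seq F (t - 1)) + s) := hI3
        _ ≤ I.card * (s * d + s) := by gcongr
        _ = s * (I.card * (d + 1)) := by ring
    have h5 : s ≤ I.card * (d + 1) := Nat.le_of_mul_le_mul_left h4 hspos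
    have h6 : K * s ≤ d * (d + 1) := by
      calc K * s ≤ K * (I.card * (d + 1)) := Nat.mul_le_mul_left _ h5
        _ = (K * I.card) * (d + 1) := by ring
        _ ≤ d * (d + 1) := Nat.mul_le_mul_right _ h1.le
    have hd1 : 1 ≤ d := by omega
    calc K * N ≤ K * (2 * s) := Nat.mul_le_mul_left _ h2
      _ = 2 * (K * s) := by ring
      _ ≤ 2 * (d * (d + 1)) := Nat.mul_le_mul_left _ h6
      _ ≤ 4 * d ^ 2 := by nlinarith

end Pool.Agent.Helper60.RS
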