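import Mathlib
import Pool.Agent.Helper60.RS.Star
import Pool.Agent.Helper60.RS.CleanLemma
import Pool.Agent.Helper60.RS.Core

/-!
# PREP: the cleaned star system

Take `K = 16 M^2 + 80 q m + 8 k + 1` and `C = 4 + 4 K`. `exists_stars` gives the stars `X z` and
`D` with `K N ≤ 4 D^2`, so `20 q m N < D^2` and `2 M ≤ D`. `clean` gives `P`. `big`:
`2 |P z| ≥ |X z| ≥ D ≥ 2 M`. `core`: for `Y ⊆ P z` with `|P z| ≤ 4 |Y|` we have
`|X z| ≤ 2 |P z| ≤ 8 |Y|`, and an independent `I ⊆ Y` with `|Y| ≤ k |I|` would give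
`|X z| ≤ 8 k |I| ≤ K |I| < |X z|`; apply `exists_core`.
-/

open Finset

namespace Pool.Agent.Helper60.RS

theorem exists_clean (m q k M : ℕ) (hm : 1 ≤ m) (hq : 1 ≤ q) :
    ∃ C : ℕ, 1 ≤ C ∧ ∀ (W : Type) [Fintype W] (H : SimpleGraph W), (∀ w, ∃ u, H.Adj w u) →
      ∀ N : ℕ, 0 < N → C * H.edgeSet.ncard ≤ N → ∀ F : SimpleGraph (Fin N),
      ¬ H.IsContained Fᶜ → ∃ (t : ℕ) (u : Fin t → Fin N) (P : Fin t → Finset (Fin N)),
        Clean F u P m q k M ∧ ∃ z, (P z).Nonempty := by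
  set K : ℕ := 16 * M ^ 2 + 80 * q * m + 8 * k + 1 with hK
  refine ⟨4 + 4 * K, by omega, ?_⟩
  intro W _ H hH N hN hC F hF
  obtain ⟨t, u, X, D, ht1, ht2, hX, hKD⟩ := exists_stars K (by omega) H hH N hN hC F hF
  have hKN : K ≤ K * N := Nat.le_mul_of_pos_right K hN
  have hbig : 20 * q * m * Fintype.card (Fin N) < D ^ 2 := by
    rw [Fintype.card_fin]
    have h1 : (80 * q * m + 1) * N ≤ K * N := Nat.mul_le_mul_right N (by
      rw [hK]
      have : 0 ≤ 16 * M ^ 2 := Nat.zero_le _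
      omega)
    have h2 : (80 * q * m + 1) * N = 4 * (20 * q * m * N) + N := by ring
    omega
  have hDM : 2 * M ≤ D := by
    have h1 : (4 * M) ^ 2 ≤ (2 * D) ^ 2 := by
      have e1 : (4 * M) ^ 2 = 16 * M ^ 2 := by ring
      have e2 : (2 * D) ^ 2 = 4 * D ^ 2 := by ring
      rw [e1, e2]
      omega
    have h2 := (Nat.pow_le_pow_iff_left (by norm_num : (2 : ℕ) ≠ 0)).mp h1
    omega
  obtain ⟨P, hP1, hP2, hP3, hP4⟩ := clean X D m q hm hq hX.card
    (by simpa using ht1) (by simpa using ht2) (by simpa using hN) hbig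
  refine ⟨t, u, P, ⟨hX.inj, fun z x hx => hX.adj z x (hP1 z hx), ?_, ?_, hP4⟩, hP2⟩
  · intro z hz
    have h1 := hP3 z hz
    have h2 := hX.card z
    omega
  · intro z hz Y hY hYc
    apply exists_core
    intro I hI hind
    by_contra hcon
    rw [not_lt] at hcon
    have h1 := hP3 z hz
    have h2 := hX.indep z I ((hI.trans hY).trans (hP1 z)) hind
    have h3 : 8 * k * I.card ≤ K * I.card := Nat.mul_le_mul_right _ (by
      rw [hK]
      have : 0 ≤ 16 * M ^ 2 := Nat.zero_le _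
      have : 0 ≤ 80 * q * m := Nat.zero_le _
      omega)
    have h4 : 8 * k * I.card = 8 * (k * I.card) := by ring
    omega

end Pool.Agent.Helper60.RS
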