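import Mathlib
import Pool.Agent.Helper60.RS.Link

/-!
# ROB: the two-level robust set

Let `z₀` have `P z₀` nonempty, `Q z = lk P m z`. The robust set is
`Y = ⋃_{v ∈ Q z₀} P v ∪ u (⋃_{v ∈ {z₀} ∪ Q z₀} Q v)`.

(a) `P z₀ ⊆ ⋃_{v ∈ Q z₀} P v`: a point `x ∈ P z₀` has a partner (`exists_partner`), and any
`v ∈ cen P m z₀ x y` is in `Q z₀` with `x ∈ P v`. Hence `lvl u P m v ⊆ Y` for `v ∈ {z₀} ∪ Q z₀`.
(b) leaf: a point `y ∈ P v`, `v ∈ Q z₀`, has a partner in `P v`, so it is adjacent to at least `m`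
distinct centres `u w`, `w ∈ cen ⊆ Q v`. A centre `u w`, `w ∈ Q v`, `v ∈ {z₀} ∪ Q z₀`, is adjacent
to the at least `m` points of `P w ∩ P v`, which lie in `Y` by (a), and even in
`⋃_{v ∈ Q z₀} P v`.
(c) ear: first let `a ∈ P v`, `b ∈ P v'` with `v, v' ∈ Q z₀`. Choose
`a' ∈ P v ∩ P z₀`, `b' ∈ P v' ∩ P z₀` distinct and off `W ∪ {a, b}` (possible, at least `m` points
each), and join `a -4- a' -(4+j)- b' -4- b` by `link` in the levels of `v`, `z₀`, `v'` and
`Ear.trans` twice: total length `12 + j`, `j = 0, 1, 2`. If `a` (or `b`, or both) is a centre,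
first go to an adjacent point of `⋃_{v ∈ Q z₀} P v` off `W ∪ {a, b}` (see (b)) and use `j = 1`
(`j = 0` if both are). In all cases the total length is 14.
(d) cone: `Q z₀` has at least `m` elements, so some `u v`, `v ∈ Q z₀`, is not in `W`; it is in `Y`;
take `X` from `core` for `P v` minus `W`.
-/

open Finset

namespace Pool.Agent.Helper60.RS

variable {α : Type*} [Fintype α] [DecidableEq α] {ι : Type*} [Fintype ι] [DecidableEq ι]

/-- The two-level robust set. -/
def rob (u : ι → α) (P : ι → Finset α) (m : ℕ) (z : ι) : Finset α :=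
  (lk P m z).biUnion P ∪ ((insert z (lk P m z)).biUnion (lk P m)).image u

variable {F : SimpleGraph α} {u : ι → α} {P : ι → Finset α} {m q k M : ℕ}

private theorem rob_mem_lk {z v : ι} : v ∈ lk P m z ↔ v ≠ z ∧ m ≤ (P v ∩ P z).card := by
  simp [lk]

private theorem rob_mem_cen {z v : ι} {x y : α} :
    v ∈ cen P m z x y ↔ v ≠ z ∧ x ∈ P v ∧ y ∈ P v ∧ m ≤ (P v ∩ P z).card := by
  simp [cen]

private theorem rob_exists_notMem {S W : Finset α} (h : W.card < S.card) : ∃ x ∈ S, x ∉ W := by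
  by_contra hcon
  push Not at hcon
  exact absurd (Finset.card_le_card hcon) (by omega)

private theorem rob_exists_centre (hC : Clean F u P m q k M) {S : Finset ι} {W : Finset α}
    (h : W.card < S.card) : ∃ v ∈ S, u v ∉ W := by
  obtain ⟨x, hx, hxW⟩ := rob_exists_notMem (S := S.image u) (W := W) (by
    rwa [Finset.card_image_of_injective _ hC.inj])
  obtain ⟨v, hv, rfl⟩ := Finset.mem_image.1 hx
  exact ⟨v, hv, hxW⟩

/-- (a) -/
private theorem rob_pz (hC : Clean F u P m q k M) (hq : 8 ≤ q) (hm : 1 ≤ m) (hM : 20 * m ≤ M)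
    {z : ι} {x : α} (hx : x ∈ P z) : x ∈ (lk P m z).biUnion P := by
  obtain ⟨y, _, _, hc⟩ := exists_partner hC hq (by omega) hx
  obtain ⟨v, hv⟩ := Finset.card_pos.1 (lt_of_lt_of_le hm hc)
  rw [rob_mem_cen] at hv
  exact Finset.mem_biUnion.2 ⟨v, rob_mem_lk.2 ⟨hv.1, hv.2.2.2⟩, hv.2.1⟩

private theorem rob_p (hC : Clean F u P m q k M) (hq : 8 ≤ q) (hm : 1 ≤ m) (hM : 20 * m ≤ M)
    {z v : ι} (hv : v ∈ insert z (lk P m z)) {x : α} (hx : x ∈ P v) :
    x ∈ (lk P m z).biUnion P := by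
  rcases Finset.mem_insert.1 hv with rfl | hv
  · exact rob_pz hC hq hm hM hx
  · exact Finset.mem_biUnion.2 ⟨v, hv, hx⟩

private theorem rob_of_pt {z : ι} {x : α} (hx : x ∈ (lk P m z).biUnion P) : x ∈ rob u P m z :=
  Finset.mem_union_left _ hx

private theorem rob_of_centre {z v w : ι} (hv : v ∈ insert z (lk P m z)) (hw : w ∈ lk P m v) :
    u w ∈ rob u P m z :=
  Finset.mem_union_right _ (Finset.mem_image_of_mem u (Finset.mem_biUnion.2 ⟨v, hv, hw⟩))

private theorem rob_lvl (hC : Clean F u P m q k M) (hq : 8 ≤ q) (hm : 1 ≤ m) (hM : 20 * m ≤ M)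
    {z v : ι} (hv : v ∈ insert z (lk P m z)) : lvl u P m v ⊆ rob u P m z := by
  intro x hx
  unfold lvl at hx
  rcases Finset.mem_union.1 hx with hx | hx
  · exact rob_of_pt (rob_p hC hq hm hM hv hx)
  · obtain ⟨w, hw, rfl⟩ := Finset.mem_image.1 hx
    exact rob_of_centre hv hw

/-- the classification of the elements -/
private theorem rob_cases {z : ι} {y : α} (hy : y ∈ rob u P m z) :
    y ∈ (lk P m z).biUnion P ∨ ∃ v ∈ insert z (lk P m z), ∃ w ∈ lk P m v, y = u w := by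
  unfold rob at hy
  rcases Finset.mem_union.1 hy with h | h
  · exact Or.inl h
  · obtain ⟨w, hw, rfl⟩ := Finset.mem_image.1 h
    obtain ⟨v, hv, hw⟩ := Finset.mem_biUnion.1 hw
    exact Or.inr ⟨v, hv, w, hw, rfl⟩

/-- a centre is adjacent to many points -/
private theorem rob_pt_of_centre (hC : Clean F u P m q k M) (hq : 8 ≤ q) (hm : 1 ≤ m)
    (hM : 20 * m ≤ M) {z v w : ι} (hv : v ∈ insert z (lk P m z)) (hw : w ∈ lk P m v)
    (W : Finset α) (hW : W.card < m) :
    ∃ x ∈ (lk P m z).biUnion P, x ∉ W ∧ F.Adj (u w) x := by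
  rw [rob_mem_lk] at hw
  obtain ⟨x, hx, hxW⟩ := rob_exists_notMem (lt_of_lt_of_le hW hw.2)
  rw [Finset.mem_inter] at hx
  exact ⟨x, rob_p hC hq hm hM hv hx.2, hxW, hC.adj w x hx.1⟩

theorem rob_leaf (hC : Clean F u P m q k M) (hq : 8 ≤ q) (hm : 1 ≤ m) (hM : 20 * m ≤ M) {z : ι}
    (W : Finset α) (hW : W.card < m) (y : α) (hy : y ∈ rob u P m z) :
    ∃ y' ∈ rob u P m z, y' ∉ W ∧ F.Adj y y' := by
  rcases rob_cases hy with h | ⟨v, hv, w, hw, rfl⟩
  · obtain ⟨v, hv, hyv⟩ := Finset.mem_biUnion.1 h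
    obtain ⟨y', _, _, hc⟩ := exists_partner hC hq (by omega) hyv
    obtain ⟨w, hw, hwW⟩ := rob_exists_centre hC (lt_of_lt_of_le hW hc)
    rw [rob_mem_cen] at hw
    exact ⟨u w, rob_of_centre (Finset.mem_insert_of_mem hv) (rob_mem_lk.2 ⟨hw.1, hw.2.2.2⟩), hwW,
      (hC.adj w y hw.2.1).symm⟩
  · obtain ⟨x, hx, hxW, hadj⟩ := rob_pt_of_centre hC hq hm hM hv hw W hW
    exact ⟨x, rob_of_pt hx, hxW, hadj⟩

/-- points -/
private theorem rob_ear_pt (hC : Clean F u P m q k M) (hq : 8 ≤ q) (hk : 1 ≤ k)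
    (hM : 20 * m ≤ M) {z : ι} (W : Finset α) (hW : W.card + 40 ≤ m) (a b : α)
    (ha : a ∈ (lk P m z).biUnion P) (hb : b ∈ (lk P m z).biUnion P) (hab : a ≠ b) (j : ℕ)
    (hj : j ≤ 2) : Ear F (rob u P m z) W (12 + j) a b := by
  have hm : 1 ≤ m := by omega
  obtain ⟨v, hv, hav⟩ := Finset.mem_biUnion.1 ha
  obtain ⟨v', hv', hbv⟩ := Finset.mem_biUnion.1 hb
  have hv1 := rob_mem_lk.1 hv
  have hv1' := rob_mem_lk.1 hv'
  obtain ⟨a', ha', ha'W⟩ := rob_exists_notMem (S := P v ∩ P z) (W := insert a (insert b W)) (by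
    have h1 := Finset.card_insert_le a (insert b W)
    have h2 := Finset.card_insert_le b W
    omega)
  obtain ⟨b', hb', hb'W⟩ := rob_exists_notMem (S := P v' ∩ P z)
    (W := insert a' (insert a (insert b W))) (by
    have h0 := Finset.card_insert_le a' (insert a (insert b W))
    have h1 := Finset.card_insert_le a (insert b W)
    have h2 := Finset.card_insert_le b W
    omega)
  rw [Finset.mem_inter] at ha' hb'
  simp only [Finset.mem_insert, not_or] at ha'W hb'W
  have hzi : z ∈ insert z (lk P m z) := Finset.mem_insert_self _ _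
  have hcb := Finset.card_insert_le b W
  have hcb' := Finset.card_insert_le b' (insert b W)
  have s1 : Ear F (rob u P m z) (insert b W) (4 + (4 + j)) a b' := by
    refine Ear.trans (s := a') (rob_of_pt (rob_p hC hq hm hM hzi ha'.2)) ?_ ha'W.1
      (fun h => hb'W.1 h.symm) (fun h => hb'W.2.1 h.symm) ?_ (fun W' hW' => ?_) (by norm_num)
      (by omega)
    · rw [Finset.mem_insert, not_or]
      exact ⟨ha'W.2.1, ha'W.2.2⟩
    · have := link hC hq hk hM hav ha'.1 (fun h => ha'W.1 h.symm) (insert b' (insert b W))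
        (by omega) 0 (by norm_num)
      exact Ear.mono (rob_lvl hC hq hm hM (Finset.mem_insert_of_mem hv)) (Finset.Subset.refl _) this
    · have := link hC hq hk hM ha'.2 hb'.2 (fun h => hb'W.1 h.symm) W' (by omega) j hj
      exact Ear.mono (rob_lvl hC hq hm hM hzi) (Finset.Subset.refl _) this
  have s2 : Ear F (rob u P m z) W (4 + (4 + j) + 4) a b := by
    refine Ear.trans (s := b') (rob_of_pt (rob_p hC hq hm hM hzi hb'.2)) hb'W.2.2.2 hb'W.2.1
      hb'W.2.2.1 hab s1 (fun W' hW' => ?_) (by omega) (by norm_num)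
    have := link hC hq hk hM hb'.1 hbv hb'W.2.2.1 W' (by omega) 0 (by norm_num)
    exact Ear.mono (rob_lvl hC hq hm hM (Finset.mem_insert_of_mem hv')) (Finset.Subset.refl _) this
  have e : 4 + (4 + j) + 4 = 12 + j := by omega
  rwa [e] at s2

/-- from a point -/
private theorem rob_ear_half (hC : Clean F u P m q k M) (hq : 8 ≤ q) (hk : 1 ≤ k)
    (hM : 20 * m ≤ M) {z : ι} (W : Finset α) (hW : W.card + 55 ≤ m) (a b : α)
    (ha : a ∈ (lk P m z).biUnion P) (hb : b ∈ rob u P m z) (hab : a ≠ b) (j : ℕ)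
    (hj : j ≤ 1) : Ear F (rob u P m z) W (13 + j) a b := by
  have hm : 1 ≤ m := by omega
  rcases rob_cases hb with h | ⟨v, hv, w, hw, rfl⟩
  · have := rob_ear_pt hC hq hk hM W (by omega) a b ha h hab (1 + j) (by omega)
    rwa [← Nat.add_assoc] at this
  · obtain ⟨s, hs, hsW, hadj⟩ := rob_pt_of_centre hC hq hm hM hv hw (insert a (insert (u w) W)) (by
      have h1 := Finset.card_insert_le a (insert (u w) W)
      have h2 := Finset.card_insert_le (u w) W
      omega)
    simp only [Finset.mem_insert, not_or] at hsW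
    have hcb := Finset.card_insert_le (u w) W
    have e : 12 + j + 1 = 13 + j := by omega
    rw [← e]
    refine Ear.trans (s := s) (rob_of_pt hs) hsW.2.2 hsW.1 hsW.2.1 hab ?_ (fun W' _ => ?_)
      (by omega) (by norm_num)
    · exact rob_ear_pt hC hq hk hM _ (by omega) a s ha hs (fun h => hsW.1 h.symm) j (by omega)
    · exact Ear.edge hadj.symm

theorem rob_ear (hC : Clean F u P m q k M) (hq : 8 ≤ q) (hk : 1 ≤ k) (hM : 20 * m ≤ M) {z : ι}
    (hz : (P z).Nonempty) (W : Finset α) (hW : W.card + 60 ≤ m) (a b : α)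
    (ha : a ∈ rob u P m z) (hb : b ∈ rob u P m z) (hab : a ≠ b) :
    Ear F (rob u P m z) W 14 a b := by
  have hm : 1 ≤ m := by omega
  rcases rob_cases ha with h | ⟨v, hv, w, hw, rfl⟩
  · exact rob_ear_half hC hq hk hM W (by omega) a b h hb hab 1 (by norm_num)
  · obtain ⟨s, hs, hsW, hadj⟩ := rob_pt_of_centre hC hq hm hM hv hw (insert b (insert (u w) W)) (by
      have h1 := Finset.card_insert_le b (insert (u w) W)
      have h2 := Finset.card_insert_le (u w) W
      omega)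
    simp only [Finset.mem_insert, not_or] at hsW
    have e : 14 = 1 + 13 := by norm_num
    rw [e]
    refine Ear.trans (s := s) (rob_of_pt hs) hsW.2.2 hsW.2.1 hsW.1 hab (Ear.edge hadj)
      (fun W' hW' => ?_) (by norm_num) (by norm_num)
    exact rob_ear_half hC hq hk hM W' (by omega) s b hs hb hsW.1 0 (by norm_num)

theorem rob_cone (hC : Clean F u P m q k M) (hq : 8 ≤ q) (hm : 1 ≤ m) (hM : 20 * m ≤ M) {z : ι}
    (hz : (P z).Nonempty) (W : Finset α) (hW : W.card < m) :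
    ∃ w ∈ rob u P m z, w ∉ W ∧ ∃ X ⊆ rob u P m z, X.Nonempty ∧
      (∀ x ∈ X, x ∉ W ∧ F.Adj w x) ∧ ∀ x ∈ X, k ≤ (nb F X x).card := by
  obtain ⟨x, hx⟩ := hz
  obtain ⟨y, _, _, hc⟩ := exists_partner hC hq (by omega) hx
  have hlk : m ≤ (lk P m z).card := by
    refine hc.trans (Finset.card_le_card fun v hv => ?_)
    rw [rob_mem_cen] at hv
    exact rob_mem_lk.2 ⟨hv.1, hv.2.2.2⟩
  obtain ⟨v, hv, hvW⟩ := rob_exists_centre hC (lt_of_lt_of_le hW hlk)
  have hv1 := rob_mem_lk.1 hv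
  have hne : (P v).Nonempty := by
    obtain ⟨t, ht⟩ := Finset.card_pos.1 (lt_of_lt_of_le hm hv1.2)
    exact ⟨t, (Finset.mem_inter.1 ht).1⟩
  have hbig := hC.big v hne
  obtain ⟨X, hX, hXne, hXk⟩ := hC.core v hne (P v \ W) Finset.sdiff_subset (by
    have h1 := Finset.le_card_sdiff W (P v)
    omega)
  refine ⟨u v, rob_of_centre (Finset.mem_insert_self _ _) hv, hvW, X, ?_, hXne, ?_, hXk⟩
  · intro t ht
    exact rob_of_pt (Finset.mem_biUnion.2 ⟨v, hv, (Finset.mem_sdiff.1 (hX ht)).1⟩)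
  · intro t ht
    have := Finset.mem_sdiff.1 (hX ht)
    exact ⟨this.2, hC.adj v t this.1⟩

theorem robust (hC : Clean F u P m q k M) (hq : 8 ≤ q) (hk : 1 ≤ k) (hm : k + 60 ≤ m)
    (hM : 20 * m ≤ M) {z : ι} (hz : (P z).Nonempty) : Robust F (rob u P m z) k where
  leaf := fun W hW y hy => rob_leaf hC hq (by omega) hM W (by omega) y hy
  ear := fun W hW a ha b hb hab => rob_ear hC hq hk hM hz W (by omega) a b ha hb hab
  cone := fun W hW => rob_cone hC hq (by omega) hM hz W (by omega)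

end Pool.Agent.Helper60.RS
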