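import Mathlib
import Pool.Agent.Helper60.RS.Prep
import Pool.Agent.Helper60.RS.Rob
import Pool.Agent.Helper60.RS.EmbA
import Pool.Agent.Helper60.RS.EmbB
import Pool.Agent.Helper60.RS.Dens
import Pool.Agent.Helper60.RS.EdgeCount

/-!
# Assembly of the two theorems
-/

open Finset

namespace Pool.Agent.Helper60.RS

theorem rsl_of_clean {V : Type} [Fintype V] (G : SimpleGraph V) (m q k M : ℕ) (hm : 1 ≤ m)
    (hq : 1 ≤ q)
    (h : ∀ (N : ℕ) (F : SimpleGraph (Fin N)) (t : ℕ) (u : Fin t → Fin N)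
      (P : Fin t → Finset (Fin N)), Clean F u P m q k M → (∃ z, (P z).Nonempty) →
      G.IsContained F) :
    ∃ c : ℝ, 0 < c ∧ ∀ (W : Type) [Fintype W] (H : SimpleGraph W), (∀ w : W, ∃ u : W, H.Adj w u) →
      ∀ N : ℕ, c * (H.edgeSet.ncard : ℝ) ≤ (N : ℝ) →
        ∀ F : SimpleGraph (Fin N), G.IsContained F ∨ H.IsContained Fᶜ := by
  classical
  obtain ⟨C, hC, hmain⟩ := exists_clean m q k M hm hq
  refine ⟨C, by exact_mod_cast hC, ?_⟩
  intro W _ H hH N hN F
  rcases isEmpty_or_nonempty W with hW | hW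
  · right; exact SimpleGraph.IsContained.of_isEmpty
  by_contra hcon
  rw [not_or] at hcon
  obtain ⟨h1, h2⟩ := hcon
  have hN' : C * H.edgeSet.ncard ≤ N := by exact_mod_cast hN
  have hpos : 0 < H.edgeSet.ncard := by
    obtain ⟨w⟩ := hW
    obtain ⟨x, hx⟩ := hH w
    rw [Set.ncard_pos (Set.toFinite _)]
    exact ⟨s(w, x), hx⟩
  have hNpos : 0 < N := lt_of_lt_of_le (Nat.mul_pos (by omega) hpos) hN'
  obtain ⟨t, u, P, hcl, hne⟩ := hmain W H hH N hNpos hN' F h2
  exact h1 (h N F t u P hcl hne)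

/-- **Theorem B.** Graphs of local density below `1 + 1/41` are Ramsey size linear. -/
theorem rsl_low_density (V : Type) [Fintype V] (G : SimpleGraph V)
    (hG : ∀ S : Finset V, S.Nonempty →
      41 * {e ∈ G.edgeSet | ∀ v ∈ e, v ∈ S}.ncard < 42 * S.card) :
    ∃ c : ℝ, 0 < c ∧ ∀ (W : Type) [Fintype W] (H : SimpleGraph W), (∀ w : W, ∃ u : W, H.Adj w u) →
      ∀ N : ℕ, c * (H.edgeSet.ncard : ℝ) ≤ (N : ℝ) →
        ∀ F : SimpleGraph (Fin N), G.IsContained F ∨ H.IsContained Fᶜ := by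
  classical
  set n := Fintype.card V with hn
  have hB : Bd G univ := by
    apply build_of_density
    intro S hS
    have := hG S hS
    rw [pairs_eq_two_mul]
    omega
  apply rsl_of_clean G (n + 1 + 60) 8 (n + 1) (20 * (n + 1 + 60)) (by omega) (by omega)
  intro N F t u P hC hz
  obtain ⟨z, hz⟩ := hz
  have hR := robust hC le_rfl (by omega) le_rfl le_rfl hz
  obtain ⟨φ, -, hinj, hadj⟩ := embed_build G F (n + 1) (by omega) _ hR univ hB
  refine ⟨⟨⟨φ, fun {a b} hab => hadj a (mem_univ _) b (mem_univ _) hab⟩, ?_⟩⟩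
  intro a b hab
  exact hinj (by simp) (by simp) hab

/-- **Theorem A.** -/
theorem rsl_trees (V : Type) [Fintype V] (G : SimpleGraph V) (W A : Set V)
    (hW : W.Subsingleton) (hWA : Disjoint W A) (hWadj : ∀ w ∈ W, ∀ v, G.Adj w v → v ∈ A)
    (hac : (G.induce A).IsAcyclic)
    (hR : ∀ r, r ∉ A → r ∉ W → ∀ v, G.Adj r v → v ∈ A)
    (hR2 : ∀ r, r ∉ A → r ∉ W → (G.neighborSet r).ncard ≤ 2)
    (hR3 : ∀ r, r ∉ A → r ∉ W → ∀ a b : A, G.Adj r a → G.Adj r b → a ≠ b →
      ¬ (G.induce A).Reachable a b) :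
    ∃ c : ℝ, 0 < c ∧ ∀ (W : Type) [Fintype W] (H : SimpleGraph W), (∀ w : W, ∃ u : W, H.Adj w u) →
      ∀ N : ℕ, c * (H.edgeSet.ncard : ℝ) ≤ (N : ℝ) →
        ∀ F : SimpleGraph (Fin N), G.IsContained F ∨ H.IsContained Fᶜ := by
  classical
  set n := Fintype.card V with hn
  apply rsl_of_clean G (n + 1) (2 * n + 8) (n + 1) (8 * n + 8) (by omega) (by omega)
  intro N F t u P hC hz
  obtain ⟨z, hz⟩ := hz
  -- labels
  let e := Fintype.equivFin (G.induce A).ConnectedComponent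
  let c : V → ℕ := fun v => if hv : v ∈ A then
    (e ((G.induce A).connectedComponentMk ⟨v, hv⟩)).1 else 0
  have hceq : ∀ a b : A, c a = c b → (G.induce A).Reachable a b := by
    intro a b hab
    simp only [c, dif_pos a.2, dif_pos b.2] at hab
    have h1 := e.injective (Fin.ext hab)
    exact SimpleGraph.ConnectedComponent.exact h1
  refine embed_base G hC n le_rfl le_rfl le_rfl le_rfl le_rfl hz W.toFinset A.toFinset c ?_ ?_ ?_
    ?_ ?_ ?_ ?_ ?_
  · rw [Finset.card_le_one]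
    intro a ha b hb
    rw [Set.mem_toFinset] at ha hb
    exact hW ha hb
  · rw [Set.disjoint_toFinset]
    exact hWA
  · intro w hw v hv
    rw [Set.mem_toFinset] at hw ⊢
    exact hWadj w hw v hv
  · intro B hB
    apply fo_of_acyclic G A hac B
    intro x hx
    have := hB hx
    rwa [Set.mem_toFinset] at this
  · intro a ha b hb hab
    rw [Set.mem_toFinset] at ha hb
    simp only [c, dif_pos ha, dif_pos hb]
    congr 2
    rw [SimpleGraph.ConnectedComponent.eq]
    exact SimpleGraph.Adj.reachable (by simpa using hab)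
  · intro r hr hr' v hv
    rw [Set.mem_toFinset] at hr hr' ⊢
    exact hR r hr hr' v hv
  · intro r hr hr'
    rw [Set.mem_toFinset] at hr hr'
    refine le_trans (le_of_eq ?_) (hR2 r hr hr')
    rw [Set.ncard_eq_toFinset_card']
    congr 1
    ext y
    simp [mem_nb]
  · intro r hr hr' a b ha hb hab hcab
    rw [Set.mem_toFinset] at hr hr'
    have hA := hR r hr hr' a ha
    have hB := hR r hr hr' b hb
    exact hR3 r hr hr' ⟨a, hA⟩ ⟨b, hB⟩ ha hb (by simpa using hab) (hceq ⟨a, hA⟩ ⟨b, hB⟩ hcab)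

end Pool.Agent.Helper60.RS
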