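import Mathlib
import Pool.Agent.Helper60.RS.Wrap

/-!
# UNION: disjoint unions of Ramsey size linear graphs, and one apex per component

`rsl_union`: take `c = c₁ + c₂ + |V|`. Let `H` have `e ≥ 1` edges (if `H` has no edge then, having
no isolated vertex, it has no vertex) and suppose `H` is not contained in `Fᶜ`. The graph
`G.induce S` is contained in `F`. Remove the image (at most `|V|` vertices): the rest has at least
`c₂ e` vertices, so it contains `G.induce Sᶜ` (transport the graph induced by `F` on the rest to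
`Fin N'`; its complement is contained in `Fᶜ`, so it does not contain `H`).

`rsl_trees_apex`: strong induction on `|V|`. If `W` is a subsingleton use `rsl_trees`. Otherwise take
`w ∈ W` and let `S` be the set of vertices reachable from `w`; both `G.induce S` and `G.induce Sᶜ`
have fewer vertices (another vertex of `W` is not in `S`) and satisfy the hypotheses with the
preimages of `W` and `A` (components of the forest: a walk in the smaller forest is a walk in the
larger one, via the obvious graph homomorphism).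
-/

open Finset

namespace Pool.Agent.Helper60.RS

/-- `G` is Ramsey size linear. -/
def RSL {V : Type} (G : SimpleGraph V) : Prop :=
  ∃ c : ℝ, 0 < c ∧ ∀ (W : Type) [Fintype W] (H : SimpleGraph W), (∀ w : W, ∃ u : W, H.Adj w u) →
    ∀ N : ℕ, c * (H.edgeSet.ncard : ℝ) ≤ (N : ℝ) →
      ∀ F : SimpleGraph (Fin N), G.IsContained F ∨ H.IsContained Fᶜ

theorem rsl_union {V : Type} [Fintype V] (G : SimpleGraph V) (S : Set V)
    (hS : ∀ x ∈ S, ∀ y, y ∉ S → ¬ G.Adj x y) (h₁ : RSL (G.induce S)) (h₂ : RSL (G.induce Sᶜ)) :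
    RSL G := by
  classical
  obtain ⟨c₁, hc₁, h₁⟩ := h₁
  obtain ⟨c₂, hc₂, h₂⟩ := h₂
  refine ⟨c₁ + c₂ + Fintype.card V, by positivity, ?_⟩
  intro W _ H hH N hN F
  rcases isEmpty_or_nonempty W with hW | hW
  · right; exact SimpleGraph.IsContained.of_isEmpty
  by_cases hcon : H.IsContained Fᶜ
  · right; exact hcon
  left
  have hpos : 0 < H.edgeSet.ncard := by
    obtain ⟨w⟩ := hW
    obtain ⟨x, hx⟩ := hH w
    rw [Set.ncard_pos (Set.toFinite _)]
    exact ⟨s(w, x), hx⟩
  have he1 : (1 : ℝ) ≤ H.edgeSet.ncard := by exact_mod_cast hpos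
  set e : ℝ := ((H.edgeSet.ncard : ℕ) : ℝ) with he
  have hV0 : (0 : ℝ) ≤ Fintype.card V := Nat.cast_nonneg _
  have hN1 : c₁ * e ≤ N := by nlinarith
  obtain ⟨φ⟩ := (h₁ W H hH N hN1 F).resolve_right hcon
  -- the rest
  set I : Finset (Fin N) := Finset.univ.image (fun x : S => φ x) with hI
  have hIc : I.card ≤ Fintype.card V := by
    refine Finset.card_image_le.trans ?_
    rw [Finset.card_univ]
    exact Fintype.card_subtype_le _
  set R : Finset (Fin N) := Iᶜ with hR
  have hRc : (R.card : ℝ) + I.card = N := by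
    have h := Finset.card_add_card_compl I
    rw [Fintype.card_fin] at h
    rw [hR]
    exact_mod_cast (by omega : Iᶜ.card + I.card = N)
  have hIc' : (I.card : ℝ) ≤ Fintype.card V := by exact_mod_cast hIc
  have hN2 : c₂ * e ≤ R.card := by nlinarith
  let σ : Fin R.card ≃ R := R.equivFin.symm
  let F' : SimpleGraph (Fin R.card) := F.comap (fun i => ((σ i : R) : Fin N))
  have hinj : Function.Injective (fun i => ((σ i : R) : Fin N)) :=
    Subtype.val_injective.comp σ.injective
  have hno : ¬ H.IsContained F'ᶜ := by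
    rintro ⟨ψ⟩
    apply hcon
    refine ⟨⟨⟨fun w => ((σ (ψ w) : R) : Fin N), ?_⟩, ?_⟩⟩
    · intro a b hab
      have h := ψ.toHom.map_adj hab
      rw [SimpleGraph.compl_adj] at h ⊢
      exact ⟨fun h' => h.1 (hinj h'), fun h' => h.2 h'⟩
    · intro a b hab
      exact ψ.injective (hinj hab)
  obtain ⟨ψ⟩ := (h₂ W H hH R.card hN2 F').resolve_right hno
  -- the union of the two copies
  have hψI : ∀ x : (Sᶜ : Set V), ((σ (ψ x) : R) : Fin N) ∉ I := by
    intro x
    exact Finset.mem_compl.1 (σ (ψ x)).2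
  have hφI : ∀ x : S, φ x ∈ I := fun x => Finset.mem_image_of_mem _ (Finset.mem_univ x)
  let f : V → Fin N := fun v => if hv : v ∈ S then φ ⟨v, hv⟩ else ((σ (ψ ⟨v, hv⟩) : R) : Fin N)
  refine ⟨⟨⟨f, ?_⟩, ?_⟩⟩
  · intro a b hab
    by_cases ha : a ∈ S
    · have hb : b ∈ S := by
        by_contra hb
        exact hS a ha b hb hab
      simp only [f, dif_pos ha, dif_pos hb]
      exact φ.toHom.map_adj (show (G.induce S).Adj ⟨a, ha⟩ ⟨b, hb⟩ from hab)
    · have hb : b ∉ S := by
        intro hb
        exact hS b hb a ha hab.symm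
      simp only [f, dif_neg ha, dif_neg hb]
      have h := ψ.toHom.map_adj (show (G.induce Sᶜ).Adj ⟨a, ha⟩ ⟨b, hb⟩ from hab)
      exact h
  · intro a b hab
    change f a = f b at hab
    by_cases ha : a ∈ S
    · by_cases hb : b ∈ S
      · simp only [f, dif_pos ha, dif_pos hb] at hab
        have := φ.injective hab
        simpa using this
      · simp only [f, dif_pos ha, dif_neg hb] at hab
        exact absurd (hab ▸ hφI ⟨a, ha⟩) (hψI ⟨b, hb⟩)
    · by_cases hb : b ∈ S
      · simp only [f, dif_neg ha, dif_pos hb] at hab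
        exact absurd (hab ▸ hφI ⟨b, hb⟩) (hψI ⟨a, ha⟩)
      · simp only [f, dif_neg ha, dif_neg hb] at hab
        have := ψ.injective (hinj hab)
        simpa using this

/-- the hypotheses of the theorem -/
private structure Hyp {V : Type} (G : SimpleGraph V) (W A : Set V) : Prop where
  hW : ∀ w ∈ W, ∀ w' ∈ W, G.Reachable w w' → w = w'
  hWA : Disjoint W A
  hWadj : ∀ w ∈ W, ∀ v, G.Adj w v → v ∈ A
  hac : (G.induce A).IsAcyclic
  hR : ∀ r, r ∉ A → r ∉ W → ∀ v, G.Adj r v → v ∈ A
  hR2 : ∀ r, r ∉ A → r ∉ W → (G.neighborSet r).ncard ≤ 2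
  hR3 : ∀ r, r ∉ A → r ∉ W → ∀ a b : A, G.Adj r a → G.Adj r b → a ≠ b →
      ¬ (G.induce A).Reachable a b

private theorem Hyp.restrict {V : Type} [Fintype V] {G : SimpleGraph V} {W A : Set V}
    (h : Hyp G W A) (T : Set V) :
    Hyp (G.induce T) (Subtype.val ⁻¹' W : Set T) (Subtype.val ⁻¹' A : Set T) := by
  let f : (G.induce T).induce (Subtype.val ⁻¹' A : Set T) →g G.induce A :=
    { toFun := fun x => ⟨x.1.1, x.2⟩
      map_rel' := fun {a b} hab => hab }
  have hf : Function.Injective f := by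
    intro a b hab
    have h1 : (f a).1 = (f b).1 := by rw [hab]
    exact Subtype.ext (Subtype.ext h1)
  refine ⟨?_, ?_, ?_, ?_, ?_, ?_, ?_⟩
  · intro w hw w' hw' hr
    have h1 : G.Reachable w.1 w'.1 := hr.map (SimpleGraph.Embedding.induce T).toHom
    exact Subtype.ext (h.hW w.1 hw w'.1 hw' h1)
  · exact Disjoint.preimage _ h.hWA
  · intro w hw v hv
    exact h.hWadj w.1 hw v.1 hv
  · exact h.hac.comap f hf
  · intro r hr hr' v hv
    exact h.hR r.1 hr hr' v.1 hv
  · intro r hr hr'
    refine le_trans ?_ (h.hR2 r.1 hr hr')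
    refine Set.ncard_le_ncard_of_injOn Subtype.val ?_ Subtype.val_injective.injOn (Set.toFinite _)
    intro x hx
    exact hx
  · intro r hr hr' a b ha hb hab hreach
    have h1 : (G.induce A).Reachable (f a) (f b) := hreach.map f
    exact h.hR3 r.1 hr hr' (f a) (f b) ha hb (fun h' => hab (hf h')) h1

private theorem rsl_hyp : ∀ (n : ℕ) (V : Type) [Fintype V], Fintype.card V = n →
    ∀ (G : SimpleGraph V) (W A : Set V), Hyp G W A → RSL G := by
  intro n
  induction n using Nat.strong_induction_on with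
  | _ n ih =>
    intro V _ hn G W A h
    classical
    by_cases hsub : W.Subsingleton
    · exact rsl_trees V G W A hsub h.hWA h.hWadj h.hac h.hR h.hR2 h.hR3
    rw [Set.not_subsingleton_iff] at hsub
    obtain ⟨w, hw, w', hw', hne⟩ := hsub
    set S : Set V := {x | G.Reachable w x} with hSdef
    have hwS : w ∈ S := SimpleGraph.Reachable.refl w
    have hw'S : w' ∉ S := fun h' => hne (h.hW w hw w' hw' h')
    have hS : ∀ x ∈ S, ∀ y, y ∉ S → ¬ G.Adj x y := by
      intro x hx y hy hxy
      exact hy (SimpleGraph.Reachable.trans hx hxy.reachable)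
    have hc1 : Fintype.card S < n := by
      rw [← hn]
      exact Fintype.card_subtype_lt hw'S
    have hc2 : Fintype.card (Sᶜ : Set V) < n := by
      rw [← hn]
      exact Fintype.card_subtype_lt (x := w) (fun h' => h' hwS)
    exact rsl_union G S hS (ih _ hc1 S rfl _ _ _ (h.restrict S))
      (ih _ hc2 (Sᶜ : Set V) rfl _ _ _ (h.restrict Sᶜ))

theorem rsl_trees_apex (V : Type) [Fintype V] (G : SimpleGraph V) (W A : Set V)
    (hW : ∀ w ∈ W, ∀ w' ∈ W, G.Reachable w w' → w = w') (hWA : Disjoint W A)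
    (hWadj : ∀ w ∈ W, ∀ v, G.Adj w v → v ∈ A)
    (hac : (G.induce A).IsAcyclic)
    (hR : ∀ r, r ∉ A → r ∉ W → ∀ v, G.Adj r v → v ∈ A)
    (hR2 : ∀ r, r ∉ A → r ∉ W → (G.neighborSet r).ncard ≤ 2)
    (hR3 : ∀ r, r ∉ A → r ∉ W → ∀ a b : A, G.Adj r a → G.Adj r b → a ≠ b →
      ¬ (G.induce A).Reachable a b) : RSL G :=
  rsl_hyp _ V rfl G W A ⟨hW, hWA, hWadj, hac, hR, hR2, hR3⟩

end Pool.Agent.Helper60.RS
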